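import Mathlib

/-!
# Sums of few rank one matrices
-/

set_option autoImplicit false

namespace Pool.Agent.H75C

open Finset

/-- `A` is a sum of at most `r` matrices of rank one. -/
def FR {K X Y : Type} [Field K] (r : ℕ) (A : X → Y → K) : Prop :=
  ∃ (I : Type) (_ : Fintype I) (α : X → I → K) (β : I → Y → K),
    Fintype.card I ≤ r ∧ ∀ x y, A x y = ∑ i, α x i * β i y

/-- Every row of `S` has at most `e` nonzero entries. -/
def Sp {K X Y : Type} [Field K] (e : ℕ) (S : X → Y → K) : Prop :=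
  ∀ x, ∃ T : Finset Y, T.card ≤ e ∧ ∀ y, S x y ≠ 0 → y ∈ T

variable {K X Y Z W : Type} [Field K]

theorem FR.mono {r r' : ℕ} {A : X → Y → K} (h : FR r A) (hr : r ≤ r') : FR r' A := by
  obtain ⟨I, hI, α, β, h1, h2⟩ := h
  exact ⟨I, hI, α, β, h1.trans hr, h2⟩

theorem FR.congr {r : ℕ} {A B : X → Y → K} (h : FR r A) (hAB : ∀ x y, B x y = A x y) : FR r B := by
  obtain ⟨I, hI, α, β, h1, h2⟩ := h
  exact ⟨I, hI, α, β, h1, fun x y => by rw [hAB, h2]⟩

theorem FR.zero : FR (K := K) 0 (fun (_ : X) (_ : Y) => (0 : K)) :=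
  ⟨Empty, inferInstance, fun _ i => i.elim, fun i => i.elim, by simp, by simp⟩

theorem FR.add {r s : ℕ} {A B : X → Y → K} (h : FR r A) (h' : FR s B) :
    FR (r + s) (fun x y => A x y + B x y) := by
  obtain ⟨I, hI, α, β, h1, h2⟩ := h
  obtain ⟨J, hJ, α', β', h1', h2'⟩ := h'
  refine ⟨I ⊕ J, inferInstance, fun x => Sum.elim (α x) (α' x), fun i => Sum.elim β β' i, ?_, ?_⟩
  · rw [Fintype.card_sum]
    exact Nat.add_le_add h1 h1'
  · intro x y
    beta_reduce
    rw [h2, h2', Fintype.sum_sum_type]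
    simp

theorem FR.sum {ι : Type} (s : Finset ι) (r : ι → ℕ) (A : ι → X → Y → K)
    (h : ∀ i ∈ s, FR (r i) (A i)) : FR (∑ i ∈ s, r i) (fun x y => ∑ i ∈ s, A i x y) := by
  classical
  induction s using Finset.induction_on with
  | empty => simpa using FR.zero
  | insert a s ha ih =>
    have h1 := (h a (mem_insert_self _ _)).add (ih fun i hi => h i (mem_insert_of_mem hi))
    rw [sum_insert ha]
    exact h1.congr fun x y => by rw [sum_insert ha]

theorem FR.rows [Fintype X] (A : X → Y → K) : FR (Fintype.card X) A := by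
  classical
  refine ⟨X, inferInstance, fun x i => if x = i then 1 else 0, A, le_rfl, fun x y => ?_⟩
  simp

theorem FR.cols [Fintype Y] (A : X → Y → K) : FR (Fintype.card Y) A := by
  classical
  refine ⟨Y, inferInstance, A, fun i y => if i = y then 1 else 0, le_rfl, fun x y => ?_⟩
  simp

theorem FR.reindex {r : ℕ} {A : X → Y → K} (h : FR r A) (f : Z → X) (g : W → Y) :
    FR r (fun z w => A (f z) (g w)) := by
  obtain ⟨I, hI, α, β, h1, h2⟩ := h
  exact ⟨I, hI, fun z i => α (f z) i, fun i w => β i (g w), h1, fun z w => h2 _ _⟩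

theorem FR.scale {r : ℕ} {A : X → Y → K} (h : FR r A) (u : X → K) (v : Y → K) :
    FR r (fun x y => u x * v y * A x y) := by
  obtain ⟨I, hI, α, β, h1, h2⟩ := h
  refine ⟨I, hI, fun x i => u x * α x i, fun i y => v y * β i y, h1, fun x y => ?_⟩
  beta_reduce
  rw [h2, mul_sum]
  exact sum_congr rfl fun i _ => by ring

/-- A sum over a subset of characters has small rank. -/
theorem FR.of_finset {V : Type} (T : Finset V) (c : V → K) (f : X → V → K) (g : V → Y → K) :
    FR T.card (fun x y => ∑ v ∈ T, c v * f x v * g v y) := by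
  classical
  refine ⟨T, inferInstance, fun x v => c v * f x v, fun v y => g v y, by simp, fun x y => ?_⟩
  rw [Finset.sum_coe_sort T (fun v => c v * f x v * g v y)]

theorem FR.comp_left [Fintype W] {r : ℕ} {A : W → Y → K} (h : FR r A) (B : X → W → K) :
    FR r (fun x y => ∑ w, B x w * A w y) := by
  obtain ⟨I, hI, α, β, h1, h2⟩ := h
  refine ⟨I, hI, fun x i => ∑ w, B x w * α w i, β, h1, fun x y => ?_⟩
  simp_rw [h2, mul_sum, sum_mul]
  rw [sum_comm]
  exact sum_congr rfl fun i _ => sum_congr rfl fun w _ => by ring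

theorem FR.comp_right [Fintype W] {r : ℕ} {A : X → W → K} (h : FR r A) (B : W → Y → K) :
    FR r (fun x y => ∑ w, A x w * B w y) := by
  obtain ⟨I, hI, α, β, h1, h2⟩ := h
  refine ⟨I, hI, α, fun i y => ∑ w, β i w * B w y, h1, fun x y => ?_⟩
  simp_rw [h2, sum_mul, mul_sum]
  rw [sum_comm]
  exact sum_congr rfl fun i _ => sum_congr rfl fun w _ => by ring

theorem FR.transpose {r : ℕ} {A : X → Y → K} (h : FR r A) : FR r (fun y x => A x y) := by
  obtain ⟨I, hI, α, β, h1, h2⟩ := h
  refine ⟨I, hI, fun y i => β i y, fun i x => α x i, h1, fun y x => ?_⟩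
  beta_reduce
  rw [h2]
  exact sum_congr rfl fun i _ => by ring

/-- Kronecker products over a finite index set. -/
theorem FR.pi {J : Type} [Fintype J] [DecidableEq J] {X Y : J → Type} (r : J → ℕ)
    (A : ∀ j, X j → Y j → K) (h : ∀ j, FR (r j) (A j)) :
    FR (∏ j, r j) (fun (x : ∀ j, X j) (y : ∀ j, Y j) => ∏ j, A j (x j) (y j)) := by
  choose I hI α β h1 h2 using h
  refine ⟨∀ j, I j, inferInstance, fun x i => ∏ j, α j (x j) (i j),
    fun i y => ∏ j, β j (i j) (y j), ?_, fun x y => ?_⟩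
  · rw [Fintype.card_pi]
    exact prod_le_prod (fun _ _ => Nat.zero_le _) fun j _ => h1 j
  · simp_rw [h2, ← prod_mul_distrib]
    rw [prod_univ_sum]
    rw [Fintype.piFinset_univ]

theorem FR.kron {X' Y' : Type} {r s : ℕ} {A : X → Y → K} {B : X' → Y' → K} (h : FR r A)
    (h' : FR s B) :
    FR (r * s) (fun (x : X × X') (y : Y × Y') => A x.1 y.1 * B x.2 y.2) := by
  obtain ⟨I, hI, α, β, h1, h2⟩ := h
  obtain ⟨J, hJ, α', β', h1', h2'⟩ := h'
  refine ⟨I × J, inferInstance, fun x i => α x.1 i.1 * α' x.2 i.2,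
    fun i y => β i.1 y.1 * β' i.2 y.2, ?_, ?_⟩
  · rw [Fintype.card_prod]
    exact Nat.mul_le_mul h1 h1'
  · intro x y
    beta_reduce
    rw [h2, h2', Fintype.sum_prod_type, sum_mul_sum]
    exact sum_congr rfl fun i _ => sum_congr rfl fun w _ => by ring

/-- Passing to the rational numbers by a linear projection. -/
theorem FR.toRat [Algebra ℚ K] [Module.Finite ℚ K] {r : ℕ} {A : X → Y → K} (h : FR r A)
    (τ : K →ₗ[ℚ] ℚ) : FR (r * Module.finrank ℚ K) (fun x y => τ (A x y)) := by
  obtain ⟨I, hI, α, β, h1, h2⟩ := h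
  set b := Module.finBasis ℚ K with hb
  refine ⟨I × Fin (Module.finrank ℚ K), inferInstance, fun x i => b.repr (α x i.1) i.2,
    fun i y => τ (b i.2 * β i.1 y), ?_, ?_⟩
  · rw [Fintype.card_prod, Fintype.card_fin]
    exact Nat.mul_le_mul_right _ h1
  · intro x y
    beta_reduce
    rw [h2, map_sum, Fintype.sum_prod_type]
    refine sum_congr rfl fun i _ => ?_
    conv_lhs => rw [← b.sum_repr (α x i), sum_mul, map_sum]
    refine sum_congr rfl fun l _ => ?_
    rw [smul_mul_assoc, map_smul, smul_eq_mul]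

theorem FR.rank_le [Fintype X] [Fintype Y] {r : ℕ} {A : X → Y → K} (h : FR r A) :
    (Matrix.of A).rank ≤ r := by
  classical
  obtain ⟨I, hI, α, β, h1, h2⟩ := h
  have e : Matrix.of A = (Matrix.of α) * (Matrix.of β) := by
    ext x y
    simp [Matrix.mul_apply, h2]
  rw [e]
  exact (Matrix.rank_mul_le_left _ _).trans ((Matrix.rank_le_card_width _).trans h1)

end Pool.Agent.H75C
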