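import Pool.Agent.H75C.Dec

/-!
# Digits
-/

set_option autoImplicit false

namespace Pool.Agent.H75C

open Finset

theorem digit_sum (x d n : ℕ) : ∑ i ∈ range n, (x / d ^ i % d) * d ^ i = x % d ^ n := by
  induction n with
  | zero => simp [Nat.mod_one]
  | succ n ih =>
    rw [sum_range_succ, ih, Nat.mod_pow_succ]
    ring

/-- The digits of an element of a product of cyclic groups, modulo several numbers. -/
def dig {k : ℕ} (p : Fin k → ℕ) (d : ℕ) {Λ : Type} (m nn : Λ → ℕ) (x : ∀ l, ZMod (m l)) :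
    ∀ j, (Σ l, Fin (nn l)) → ZMod (p j) :=
  fun j i => (((x i.1).val / d ^ (i.2 : ℕ) % d : ℕ) : ZMod (p j))

theorem dig_emb {k : ℕ} (p : Fin k → ℕ) [∀ j, NeZero (p j)]
    (hp : Pairwise (Function.onFun Nat.Coprime p)) (d : ℕ) (hd0 : 0 < d) (hd : 2 * d ≤ ∏ j, p j + 1)
    {Λ : Type} (m nn : Λ → ℕ) [∀ l, NeZero (m l)] (hm : ∀ l, m l ≤ d ^ nn l) :
    IsEmb (dig p d m nn) := by
  classical
  have : NeZero (∏ j, p j) := ⟨prod_ne_zero_iff.2 fun j _ => NeZero.ne _⟩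
  set crt : (∀ j, ZMod (p j)) → ℕ := fun u => ((ZMod.prodEquivPi p hp).symm u).val with hcrt
  have hcrt' : ∀ v : ℕ, v < ∏ j, p j → crt (fun j => (v : ZMod (p j))) = v := by
    intro v hv
    have h1 : (fun j => (v : ZMod (p j))) = ZMod.prodEquivPi p hp (v : ZMod (∏ j, p j)) := by
      rw [map_natCast]
      rfl
    rw [hcrt]
    beta_reduce
    rw [h1, RingEquiv.symm_apply_apply, ZMod.val_natCast, Nat.mod_eq_of_lt hv]
  refine ⟨fun u l => ((∑ i : Fin (nn l), crt (fun j => u j ⟨l, i⟩) * d ^ (i : ℕ) : ℕ) :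
    ZMod (m l)), fun x z => ?_⟩
  funext l
  have h2 : ∀ i : Fin (nn l), crt (fun j => (dig p d m nn x + dig p d m nn z) j ⟨l, i⟩) =
      (x l).val / d ^ (i : ℕ) % d + (z l).val / d ^ (i : ℕ) % d := by
    intro i
    have h3 := Nat.mod_lt ((x l).val / d ^ (i : ℕ)) hd0
    have h4 := Nat.mod_lt ((z l).val / d ^ (i : ℕ)) hd0
    have h5 := hcrt' ((x l).val / d ^ (i : ℕ) % d + (z l).val / d ^ (i : ℕ) % d) (by omega)
    refine Eq.trans ?_ h5
    congr 1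
    funext j
    simp only [dig, Pi.add_apply]
    push_cast
    rfl
  simp_rw [h2, add_mul]
  rw [sum_add_distrib, Fin.sum_univ_eq_sum_range (fun i => ((x l).val / d ^ i % d) * d ^ i),
    Fin.sum_univ_eq_sum_range (fun i => ((z l).val / d ^ i % d) * d ^ i), digit_sum, digit_sum,
    Nat.mod_eq_of_lt ((ZMod.val_lt _).trans_le (hm l)),
    Nat.mod_eq_of_lt ((ZMod.val_lt _).trans_le (hm l))]
  push_cast
  rw [ZMod.natCast_zmod_val, ZMod.natCast_zmod_val]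
  rfl

/-- The numbers `1 + (j + 1) Q`, where `Q = (k + 1)!`, are pairwise coprime. -/
theorem moduli (k : ℕ) (hk : 1 ≤ k) : ∃ (p : Fin k → ℕ) (Q : ℕ), 2 ≤ Q ∧
    Pairwise (Function.onFun Nat.Coprime p) ∧ ∀ j, Q + 1 ≤ p j ∧ p j ≤ Q ^ 2 := by
  set Q := (k + 1).factorial with hQ
  have hQk : k + 1 ≤ Q := Nat.self_le_factorial _
  have key : ∀ i j : ℕ, i < j → j < k → Nat.Coprime (1 + (i + 1) * Q) (1 + (j + 1) * Q) := by
    intro i j hij hj
    rw [← Nat.isCoprime_iff_coprime]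
    have h1 : (j - i) ∣ Q := Nat.dvd_factorial (by omega) (by omega)
    obtain ⟨c, hc⟩ := h1
    have h2 : ((j : ℤ) - i) * c = Q := by
      have : ((j - i : ℕ) : ℤ) = (j : ℤ) - i := by
        rw [Nat.cast_sub hij.le]
      rw [← this, hc]
      push_cast
      ring
    -- `a = 1 + (i+1) Q`, `b = 1 + (j+1) Q`; `b - a = (j - i) Q`
    -- `c (b - a) = Q ^ 2` and `1 - (i+1)^2 Q^2 = a (1 - (i+1) Q)`
    refine ⟨1 - (i + 1) * Q - (i + 1) ^ 2 * c, (i + 1) ^ 2 * c, ?_⟩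
    push_cast
    have h3 : ((i : ℤ) + 1) ^ 2 * c * (((j : ℤ) - i) * Q) = ((i : ℤ) + 1) ^ 2 * Q * Q := by
      rw [← h2]
      ring
    have h4 : (1 - ((i : ℤ) + 1) * Q - ((i : ℤ) + 1) ^ 2 * c) * (1 + ((i : ℤ) + 1) * Q) +
        ((i : ℤ) + 1) ^ 2 * c * (1 + ((j : ℤ) + 1) * Q) =
        1 - ((i : ℤ) + 1) ^ 2 * Q * Q + ((i : ℤ) + 1) ^ 2 * c * (((j : ℤ) - i) * Q) := by
      ring
    rw [h4, h3]
    ring
  refine ⟨fun j => 1 + (j + 1) * Q, Q, ?_, ?_, ?_⟩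
  · omega
  · intro i j hij
    change Nat.Coprime _ _
    rcases lt_or_gt_of_ne (fun h => hij (Fin.ext h) : (i : ℕ) ≠ j) with h | h
    · exact key i j h j.2
    · exact (key j i h i.2).symm
  · intro j
    have hj := j.2
    constructor
    · nlinarith
    · have : (j + 1 : ℕ) ≤ k := hj
      nlinarith

end Pool.Agent.H75C
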