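import Pool.Agent.H75C.Chirp
import Pool.Agent.H75C.Digits

/-!
# Products of large cyclic groups
-/

set_option autoImplicit false

namespace Pool.Agent.H75C

open Finset Real

/-- The choice of the parameters. -/
structure Params (δ : ℝ) where
  τ : ℝ
  t : ℕ
  k : ℕ
  p : Fin k → ℕ
  P : ℕ
  d : ℕ
  τ0 : 0 < τ
  τ1 : τ ≤ 1
  ht : 5 ≤ t * (τ ^ 2 / 512)
  hp : Pairwise (Function.onFun Nat.Coprime p)
  hp3 : ∀ j, 3 ≤ p j
  hpP : ∀ j, p j ≤ P
  hP : ((P : ℝ)) ^ t ≤ ((∏ j, p j : ℕ) : ℝ) ^ δ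
  hP1 : 1 ≤ P
  hτ : ∀ j, τ * (log (p j) - log τ + 1) ≤ 2 * δ * log (p j)
  hd2 : 2 ≤ d
  hdq : 2 * d ≤ ∏ j, p j + 1
  hqd : ∏ j, p j ≤ 2 * d

theorem exists_params {δ : ℝ} (hδ : 0 < δ) : Nonempty (Params δ) := by
  obtain ⟨τ, t0, t1, t2⟩ := exists_tau hδ
  obtain ⟨t, ht⟩ := exists_nat_ge (5 / (τ ^ 2 / 512))
  rw [div_le_iff₀ (by positivity)] at ht
  obtain ⟨k0, hk0⟩ := exists_nat_ge (2 * t / δ)
  obtain ⟨p, Q, hQ2, hcop, hpQ⟩ := moduli (k0 + 1) (by omega)
  have hp3 : ∀ j, 3 ≤ p j := fun j => by have := (hpQ j).1; omega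
  set q := ∏ j, p j with hq
  have hQpos : (0 : ℝ) < Q := Nat.cast_pos.2 (by omega)
  have hq3 : 3 ≤ q := by
    have h1 : p 0 ∣ q := dvd_prod_of_mem p (mem_univ 0)
    have h2 : 0 < q := prod_pos fun j _ => by have := hp3 j; omega
    exact (hp3 0).trans (Nat.le_of_dvd h2 h1)
  have hlogτ : log τ ≤ 0 := log_nonpos t0.le t1
  refine ⟨⟨τ, t, k0 + 1, p, Q ^ 2, (q + 1) / 2, t0, t1, ht, hcop, hp3, fun j => (hpQ j).2, ?_,
    Nat.one_le_pow _ _ (by omega), fun j => ?_, by omega, by omega, by omega⟩⟩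
  · have h3 : (Q : ℝ) ^ (k0 + 1) ≤ (q : ℝ) := by
      rw [hq]
      push_cast
      calc (Q : ℝ) ^ (k0 + 1) = ∏ _j : Fin (k0 + 1), (Q : ℝ) := by simp
        _ ≤ ∏ j, (p j : ℝ) := prod_le_prod (fun _ _ => hQpos.le) fun j _ => by
            have := (hpQ j).1
            exact_mod_cast (by omega : Q ≤ p j)
    have hQ1 : (1 : ℝ) ≤ Q := by exact_mod_cast (by omega : 1 ≤ Q)
    rw [Nat.cast_pow]
    calc ((Q : ℝ) ^ 2) ^ t = (Q : ℝ) ^ ((2 * t : ℕ) : ℝ) := by
          rw [rpow_natCast, pow_mul]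
      _ ≤ (Q : ℝ) ^ (((k0 + 1 : ℕ) : ℝ) * δ) := by
          refine rpow_le_rpow_of_exponent_le hQ1 ?_
          rw [div_le_iff₀ hδ] at hk0
          push_cast
          nlinarith
      _ = ((Q : ℝ) ^ (k0 + 1)) ^ δ := by
          rw [rpow_mul hQpos.le, rpow_natCast]
      _ ≤ (q : ℝ) ^ δ := rpow_le_rpow (by positivity) h3 hδ.le
  · have h4 : (1 : ℝ) ≤ log (p j) := by
      have h5 : exp 1 ≤ (3 : ℝ) := by
        have := Real.exp_one_lt_d9
        linarith
      have h6 : (3 : ℝ) ≤ p j := by exact_mod_cast hp3 j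
      rw [le_log_iff_exp_le (by linarith)]
      linarith
    have h7 : τ ≤ δ := by nlinarith
    nlinarith

variable {K : Type} [Field K]

theorem big_dec [CharZero K] {δ : ℝ} (hδ : 0 < δ) (B : Params δ) {M : ℕ} {ζ : K} (hM : M ≠ 0)
    (hζ : IsPrimitiveRoot ζ M) (ha : ∀ j, 2 * B.p j ∣ M) {η : ℝ} (hη : 0 < η) :
    ∃ C : ℝ, 1 ≤ C ∧ ∀ (Λ : Type) [Fintype Λ] [DecidableEq Λ] (m : Λ → ℕ) [∀ l, NeZero (m l)],
      (∀ l, B.d ^ B.d ≤ m l) →
      Dec K (∀ l, ZMod (m l)) η (C * ((Fintype.card (∀ l, ZMod (m l)) : ℕ) : ℝ) ^ (24 * δ)) := by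
  classical
  have hp0 : ∀ j, NeZero (B.p j) := fun j => ⟨by have := B.hp3 j; omega⟩
  have hcomp := fun j => comp_cyc (K := K) hM hζ (ha j) B.τ0 B.τ1
  choose χ hχ hd using hcomp
  set q := ∏ j, B.p j with hq
  set c : ℝ := B.τ ^ 2 / 512 with hc
  have hc0 : 0 < c := by have := B.τ0; positivity
  have hd2 := B.hd2
  have hd1' : (1 : ℝ) ≤ B.d := by exact_mod_cast (by omega : 1 ≤ B.d)
  have hd2' : (2 : ℝ) ≤ B.d := by exact_mod_cast hd2
  have hq1 : 1 ≤ q := by
    have := B.hdq
    omega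
  have hq1' : (1 : ℝ) ≤ q := by exact_mod_cast hq1
  -- the threshold
  obtain ⟨N1, hN1⟩ := exists_nat_ge ((2 + 4 * (B.P : ℝ)) / B.τ)
  obtain ⟨N2, hN2⟩ := exists_nat_ge ((B.P : ℝ) / c)
  obtain ⟨N3, hN3⟩ := exists_nat_ge ((B.k : ℝ) - log η)
  set N := max N1 (max N2 N3) with hN
  set C : ℝ := 4 ^ B.k * ((B.d : ℝ) ^ N * (q : ℝ) ^ N) with hC
  have hC1 : 1 ≤ C := by
    refine one_le_mul_of_one_le_of_one_le (one_le_pow₀ (by norm_num))
      (one_le_mul_of_one_le_of_one_le (one_le_pow₀ hd1') (one_le_pow₀ hq1'))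
  refine ⟨C, hC1, fun Λ _ _ m _ hmd => ?_⟩
  set nn : Λ → ℕ := fun l => Nat.clog B.d (m l) with hnn
  have hm1 : ∀ l, m l ≤ B.d ^ nn l := fun l => Nat.le_pow_clog hd2 _
  have hnd : ∀ l, B.d ≤ nn l := by
    intro l
    have := Nat.clog_mono_right B.d (hmd l)
    rwa [Nat.clog_pow B.d B.d hd2] at this
  have hdd : B.d ≤ B.d ^ B.d := Nat.le_self_pow (by omega) _
  have hm2 : ∀ l, B.d ^ nn l ≤ B.d * m l := by
    intro l
    have h1 : 1 < m l := lt_of_lt_of_le hd2 (hdd.trans (hmd l))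
    have h2 := Nat.pow_pred_clog_lt_self hd2 h1
    have h3 : nn l = (nn l).pred + 1 := by
      have h4 := hnd l
      have h5 : 0 < nn l := by omega
      exact (Nat.succ_pred_eq_of_pos h5).symm
    rw [h3, pow_succ, mul_comm]
    exact Nat.mul_le_mul_left _ h2.le
  set ι := Σ l, Fin (nn l) with hι
  set n := Fintype.card ι with hn
  have hn' : n = ∑ l, nn l := by
    change Fintype.card (Σ l, Fin (nn l)) = _
    rw [Fintype.card_sigma]
    simp
  set G := ∀ l, ZMod (m l) with hG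
  have hcG : Fintype.card G = ∏ l, m l := by
    change Fintype.card (∀ l, ZMod (m l)) = _
    rw [Fintype.card_pi]
    exact prod_congr rfl fun l _ => ZMod.card _
  set g : ℝ := ((Fintype.card G : ℕ) : ℝ) with hg
  have hg1 : 1 ≤ g := by
    rw [hg]
    exact_mod_cast Fintype.card_pos_iff.2 ⟨(0 : G)⟩
  -- comparison of the sizes
  have s1 : (B.d : ℝ) ^ n ≤ (B.d : ℝ) ^ (Fintype.card Λ) * g := by
    rw [hn', hg, hcG]
    have : B.d ^ (∑ l, nn l) ≤ B.d ^ (Fintype.card Λ) * ∏ l, m l := by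
      rw [← prod_pow_eq_pow_sum]
      calc ∏ l, B.d ^ nn l ≤ ∏ l, (B.d * m l) := prod_le_prod (fun _ _ => Nat.zero_le _)
            fun l _ => hm2 l
        _ = _ := by rw [prod_mul_distrib, prod_const, card_univ]
    exact_mod_cast this
  have s2 : (B.d : ℝ) ^ n ≤ g ^ 2 := by
    rw [hn', hg, hcG]
    have : B.d ^ (∑ l, nn l) ≤ (∏ l, m l) ^ 2 := by
      rw [← prod_pow_eq_pow_sum, ← prod_pow]
      refine prod_le_prod (fun _ _ => Nat.zero_le _) fun l _ => (hm2 l).trans ?_
      rw [sq]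
      exact Nat.mul_le_mul_right _ (hdd.trans (hmd l))
    exact_mod_cast this
  have s3 : g ≤ (B.d : ℝ) ^ n := by
    rw [hn', hg, hcG]
    have : (∏ l, m l) ≤ B.d ^ (∑ l, nn l) := by
      rw [← prod_pow_eq_pow_sum]
      exact prod_le_prod (fun _ _ => Nat.zero_le _) fun l _ => hm1 l
    exact_mod_cast this
  have s4 : (B.d : ℝ) ^ (Fintype.card Λ) ≤ exp n := by
    have h1 : (B.d : ℝ) ≤ exp B.d := by
      have := Real.add_one_le_exp (B.d : ℝ)
      linarith
    calc (B.d : ℝ) ^ (Fintype.card Λ) ≤ (exp B.d) ^ (Fintype.card Λ) :=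
          pow_le_pow_left₀ (by positivity) h1 _
      _ = exp (((Fintype.card Λ * B.d : ℕ) : ℝ)) := by
          rw [← exp_nat_mul]
          push_cast
          rfl
      _ ≤ exp n := by
          rw [exp_le_exp]
          have : Fintype.card Λ * B.d ≤ n := by
            rw [hn', ← card_univ, ← smul_eq_mul]
            exact card_nsmul_le_sum _ _ _ fun l _ => hnd l
          exact_mod_cast this
  have s5 : (q : ℝ) ^ n ≤ 2 ^ n * (B.d : ℝ) ^ n := by
    rw [← mul_pow]
    refine pow_le_pow_left₀ (by positivity) ?_ n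
    exact_mod_cast B.hqd
  have s6 : (q : ℝ) ^ n ≤ g ^ 4 := by
    calc (q : ℝ) ^ n ≤ 2 ^ n * (B.d : ℝ) ^ n := s5
      _ ≤ (B.d : ℝ) ^ n * (B.d : ℝ) ^ n := mul_le_mul_of_nonneg_right
          (pow_le_pow_left₀ (by norm_num) hd2' n) (by positivity)
      _ ≤ g ^ 2 * g ^ 2 := mul_le_mul s2 s2 (by positivity) (by positivity)
      _ = g ^ 4 := by ring
  have hemb : IsEmb (dig B.p B.d m nn) := dig_emb B.p B.hp B.d (by omega) B.hdq m nn hm1
  have hrep : Rep (K := K) (fun (w x : ∀ j, ι → ZMod (B.p j)) => ∏ j, ∏ i, χ j (w j i * x j i)) :=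
    rep_pi (fun j (w x : ι → ZMod (B.p j)) => ∏ i, χ j (w i * x i)) fun j => rep_cyc (hχ j) ι
  have hcΓ : ((Fintype.card (∀ j, ι → ZMod (B.p j)) : ℕ) : ℝ) = (q : ℝ) ^ n := by
    rw [Fintype.card_pi]
    push_cast
    simp_rw [Fintype.card_fun, ZMod.card]
    push_cast
    rw [prod_pow, hq]
    push_cast
    rfl
  have hpow1 : (1 : ℝ) ≤ g ^ (24 * δ) := one_le_rpow hg1 (by positivity)
  by_cases hnN : N ≤ n
  · have hn1 : ∀ j, (2 + 4 * (B.p j : ℝ)) / B.τ ≤ (Fintype.card ι : ℝ) := by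
      intro j
      have h1 : (B.p j : ℝ) ≤ B.P := by exact_mod_cast B.hpP j
      have h2 : (2 + 4 * (B.p j : ℝ)) / B.τ ≤ (2 + 4 * (B.P : ℝ)) / B.τ :=
        div_le_div_of_nonneg_right (by linarith) B.τ0.le
      exact h2.trans (hN1.trans (Nat.cast_le.2 ((le_max_left _ _).trans hnN)))
    have hn2 : (B.P : ℝ) ≤ c * n := by
      have h1 : (B.P : ℝ) / c ≤ n := hN2.trans (Nat.cast_le.2
        (((le_max_left _ _).trans (le_max_right _ _)).trans hnN))
      rw [div_le_iff₀ hc0] at h1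
      linarith
    have hn3 : (B.k : ℝ) - log η ≤ n := hN3.trans (Nat.cast_le.2
        (((le_max_right _ _).trans (le_max_right _ _)).trans hnN))
    choose L S r e c1 c2 c3 c4 c5 c6 using fun j => hd j ι (hn1 j)
    obtain ⟨L', S', b1, b2, b3, b4⟩ := pi_decomp
      (fun j (w x : ι → ZMod (B.p j)) => ∏ i, χ j (w i * x i)) L S c1 r e e c2 c3 c4 B.t
    set κ : ℝ := exp (-(c * n)) with hκ
    have hκ0 : 0 ≤ κ := (exp_pos _).le
    have hκ1 : κ ≤ 1 := by
      rw [hκ, exp_le_one_iff]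
      have : 0 ≤ c * n := by positivity
      linarith
    have hr : ∀ j, (r j : ℝ) ≤ κ * ((Fintype.card (ι → ZMod (B.p j)) : ℕ) : ℝ) := by
      intro j
      refine (c5 j).trans ?_
      rw [Fintype.card_fun, ZMod.card]
      push_cast
      have h3 : (2 : ℝ) ^ (B.p j) * exp (-(B.τ ^ 2 / 256) * n) ≤ κ := by
        have h4 : (2 : ℝ) ^ (B.p j) ≤ exp (B.P) := by
          calc (2 : ℝ) ^ (B.p j) ≤ 2 ^ B.P := pow_le_pow_right₀ (by norm_num) (B.hpP j)
            _ ≤ (exp 1) ^ B.P := pow_le_pow_left₀ (by norm_num) (by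
                have := Real.exp_one_gt_d9
                linarith) _
            _ = exp B.P := by rw [← exp_nat_mul, mul_one]
        calc (2 : ℝ) ^ (B.p j) * exp (-(B.τ ^ 2 / 256) * n) ≤
              exp (B.P) * exp (-(B.τ ^ 2 / 256) * n) :=
              mul_le_mul_of_nonneg_right h4 (exp_pos _).le
          _ = exp (B.P + -(B.τ ^ 2 / 256) * n) := by rw [exp_add]
          _ ≤ κ := by
              rw [hκ, exp_le_exp]
              rw [hc] at hn2 ⊢
              linarith
      calc (2 : ℝ) ^ (B.p j) * (B.p j : ℝ) ^ n * exp (-(B.τ ^ 2 / 256) * n) =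
            (2 : ℝ) ^ (B.p j) * exp (-(B.τ ^ 2 / 256) * n) * (B.p j : ℝ) ^ n := by ring
        _ ≤ κ * (B.p j : ℝ) ^ n := mul_le_mul_of_nonneg_right h3 (by positivity)
    have hrank := rank_sum_le r (fun j => Fintype.card (ι → ZMod (B.p j))) hκ0 hκ1 hr B.t
    -- the sparsity
    set E : ℕ := ∑ T ∈ (univ : Finset (Fin B.k)).powerset.filter (fun T => ¬ B.t ≤ T.card),
        ∏ j, (if j ∈ T then Fintype.card (ι → ZMod (B.p j)) else e j) with hE
    have hEle : (E : ℝ) ≤ 2 ^ B.k * ((q : ℝ) ^ n) ^ (3 * δ) := by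
      rw [hE]
      push_cast
      have h5 : ∀ T ∈ (univ : Finset (Fin B.k)).powerset.filter (fun T => ¬ B.t ≤ T.card),
          ∏ j, (if j ∈ T then ((Fintype.card (ι → ZMod (B.p j)) : ℕ) : ℝ) else (e j : ℝ)) ≤
          ((q : ℝ) ^ n) ^ (3 * δ) := by
        intro T hT
        have hTc := not_le.1 (mem_filter.1 hT).2
        set Ej : Fin B.k → ℝ := fun j => exp (B.τ * (log (B.p j) - log B.τ + 1) * n) with hEj
        have hEj1 : ∀ j, 1 ≤ Ej j := by
          intro j
          rw [hEj]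
          beta_reduce
          rw [one_le_exp_iff]
          have h6 : 0 ≤ log (B.p j) := log_natCast_nonneg _
          have h7 : log B.τ ≤ 0 := log_nonpos B.τ0.le B.τ1
          have h8 : 0 ≤ log (B.p j) - log B.τ + 1 := by linarith
          have := B.τ0
          positivity
        have h9 : ∏ j, (if j ∈ T then ((Fintype.card (ι → ZMod (B.p j)) : ℕ) : ℝ) else (e j : ℝ)) ≤
            ∏ j, ((if j ∈ T then (B.P : ℝ) ^ n else 1) * Ej j) := by
          refine prod_le_prod (fun j _ => by split_ifs <;> positivity) fun j _ => ?_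
          split_ifs
          · rw [Fintype.card_fun, ZMod.card]
            push_cast
            have h10 : (B.p j : ℝ) ^ n ≤ (B.P : ℝ) ^ n :=
              pow_le_pow_left₀ (by positivity) (by exact_mod_cast B.hpP j) n
            exact h10.trans (le_mul_of_one_le_right (by positivity) (hEj1 j))
          · rw [one_mul]
            exact c6 j
        refine h9.trans ?_
        rw [prod_mul_distrib]
        have h11 : ∏ j, (if j ∈ T then (B.P : ℝ) ^ n else 1) ≤ ((q : ℝ) ^ n) ^ δ := by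
          rw [prod_ite, prod_const, prod_const_one, mul_one, ← pow_mul, mul_comm, pow_mul]
          have h12 : (univ.filter fun j => j ∈ T).card ≤ B.t := by
            have : (univ.filter fun j => j ∈ T) = T := by
              ext j
              simp
            rw [this]
            exact hTc.le
          have hP1' : (1 : ℝ) ≤ B.P := by exact_mod_cast B.hP1
          calc ((B.P : ℝ) ^ (univ.filter fun j => j ∈ T).card) ^ n ≤ ((B.P : ℝ) ^ B.t) ^ n :=
                pow_le_pow_left₀ (by positivity) (pow_le_pow_right₀ hP1' h12) n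
            _ ≤ ((q : ℝ) ^ δ) ^ n := pow_le_pow_left₀ (by positivity) B.hP n
            _ = ((q : ℝ) ^ n) ^ δ := by
                rw [← rpow_natCast, ← rpow_mul (by positivity), mul_comm,
                  rpow_mul (by positivity), rpow_natCast]
        have h13 : ∏ j, Ej j ≤ ((q : ℝ) ^ n) ^ (2 * δ) := by
          rw [hEj]
          rw [← exp_sum, rpow_def_of_pos (by positivity), exp_le_exp, log_pow]
          have h14 : log (q : ℝ) = ∑ j, log (B.p j) := by
            rw [hq]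
            push_cast
            rw [log_prod]
            intro j _
            have := B.hp3 j
            exact Nat.cast_ne_zero.2 (by omega)
          rw [h14, mul_sum, sum_mul]
          refine sum_le_sum fun j _ => ?_
          have h15 := mul_le_mul_of_nonneg_right (B.hτ j) (Nat.cast_nonneg n : (0 : ℝ) ≤ n)
          linarith
        calc (∏ j, (if j ∈ T then (B.P : ℝ) ^ n else 1)) * ∏ j, Ej j ≤
              ((q : ℝ) ^ n) ^ δ * ((q : ℝ) ^ n) ^ (2 * δ) :=
              mul_le_mul h11 h13 (prod_nonneg fun j _ => (exp_pos _).le) (by positivity)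
          _ = ((q : ℝ) ^ n) ^ (3 * δ) := by
              rw [← rpow_add (by positivity)]
              congr 1
              ring
      refine (sum_le_sum h5).trans ?_
      rw [sum_const, nsmul_eq_mul]
      refine mul_le_mul_of_nonneg_right ?_ (by positivity)
      have h16 := card_filter_le (univ : Finset (Fin B.k)).powerset (fun T => ¬ B.t ≤ T.card)
      rw [card_powerset, card_univ, Fintype.card_fin] at h16
      exact_mod_cast h16
    have hDecΓ : Dec K (∀ j, ι → ZMod (B.p j)) (2 ^ B.k * κ ^ B.t)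
        ((E : ℝ) * E) := by
      refine ⟨∀ j, ι → ZMod (B.p j), inferInstance, fun w x => ∏ j, ∏ i, χ j (w j i * x j i), L', S',
        _, _, _, hrep, b1, b2, b3, b4, ?_, le_rfl⟩
      rw [Fintype.card_fin] at hrank
      refine hrank.trans (le_of_eq ?_)
      rw [Fintype.card_pi]
      push_cast
      rfl
    refine (hDecΓ.emb hemb).mono ?_ ?_
    · rw [hcΓ]
      rw [div_le_iff₀ (by linarith : (0 : ℝ) < g)]
      have h17 : κ ^ B.t ≤ exp (-(5 * n)) := by
        rw [hκ, ← exp_nat_mul, exp_le_exp]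
        have h18 := mul_le_mul_of_nonneg_right B.ht (Nat.cast_nonneg n : (0 : ℝ) ≤ n)
        rw [hc]
        linarith
      have h19 : (2 : ℝ) ^ B.k ≤ exp B.k := by
        calc (2 : ℝ) ^ B.k ≤ (exp 1) ^ B.k := pow_le_pow_left₀ (by norm_num) (by
                have := Real.exp_one_gt_d9
                linarith) _
          _ = exp B.k := by rw [← exp_nat_mul, mul_one]
      have h20 : (2 : ℝ) ^ n ≤ exp n := by
        calc (2 : ℝ) ^ n ≤ (exp 1) ^ n := pow_le_pow_left₀ (by norm_num) (by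
                have := Real.exp_one_gt_d9
                linarith) _
          _ = exp n := by rw [← exp_nat_mul, mul_one]
      have h21 : (q : ℝ) ^ n ≤ exp n * (exp n * g) := by
        refine s5.trans (mul_le_mul h20 (s1.trans ?_) (by positivity) (exp_pos _).le)
        exact mul_le_mul_of_nonneg_right s4 (by linarith)
      calc 2 ^ B.k * κ ^ B.t * (q : ℝ) ^ n ≤ exp B.k * exp (-(5 * n)) * (exp n * (exp n * g)) :=
            mul_le_mul (mul_le_mul h19 h17 (by positivity) (exp_pos _).le) h21 (by positivity)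
              (by positivity)
        _ = exp (B.k + -(5 * n) + n + n) * g := by
            rw [exp_add, exp_add, exp_add]
            ring
        _ ≤ η * g := by
            refine mul_le_mul_of_nonneg_right ?_ (by linarith)
            conv_rhs => rw [← exp_log hη]
            rw [exp_le_exp]
            have : (0 : ℝ) ≤ n := Nat.cast_nonneg _
            linarith
    · have h22 : (E : ℝ) * E ≤ 4 ^ B.k * g ^ (24 * δ) := by
        calc (E : ℝ) * E ≤ (2 ^ B.k * ((q : ℝ) ^ n) ^ (3 * δ)) * (2 ^ B.k * ((q : ℝ) ^ n) ^ (3 * δ)) :=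
              mul_le_mul hEle hEle (Nat.cast_nonneg _) (by positivity)
          _ = 4 ^ B.k * ((q : ℝ) ^ n) ^ (6 * δ) := by
              have h23 : ((q : ℝ) ^ n) ^ (6 * δ) = ((q : ℝ) ^ n) ^ (3 * δ) * ((q : ℝ) ^ n) ^ (3 * δ) := by
                rw [← rpow_add (by positivity)]
                congr 1
                ring
              have h24 : (4 : ℝ) ^ B.k = 2 ^ B.k * 2 ^ B.k := by
                rw [← mul_pow]
                norm_num
              rw [h23, h24]
              ring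
          _ ≤ 4 ^ B.k * (g ^ 4) ^ (6 * δ) :=
              mul_le_mul_of_nonneg_left (rpow_le_rpow (by positivity) s6 (by positivity))
                (by positivity)
          _ = 4 ^ B.k * g ^ (24 * δ) := by
              rw [← rpow_natCast g 4, ← rpow_mul (by linarith)]
              congr 2
              push_cast
              ring
      refine h22.trans ?_
      rw [hC]
      have h25 : (1 : ℝ) ≤ (B.d : ℝ) ^ N * (q : ℝ) ^ N :=
        one_le_mul_of_one_le_of_one_le (one_le_pow₀ hd1') (one_le_pow₀ hq1')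
      have h26 : (0 : ℝ) < 4 ^ B.k * g ^ (24 * δ) := by positivity
      nlinarith
  · have hnN' := (not_le.1 hnN).le
    refine (Dec.triv (rep_emb hrep hemb)).mono hη.le ?_
    rw [hcΓ]
    have h5 : g ≤ (B.d : ℝ) ^ N := s3.trans (pow_le_pow_right₀ hd1' hnN')
    have h6 : (q : ℝ) ^ n ≤ (q : ℝ) ^ N := pow_le_pow_right₀ hq1' hnN'
    calc g * (q : ℝ) ^ n ≤ (B.d : ℝ) ^ N * (q : ℝ) ^ N :=
          mul_le_mul h5 h6 (by positivity) (by positivity)
      _ ≤ C := by
          rw [hC]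
          exact le_mul_of_one_le_left (by positivity) (one_le_pow₀ (by norm_num))
      _ ≤ _ := le_mul_of_one_le_right (by linarith) hpow1

end Pool.Agent.H75C
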