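import Pool.Agent.H75C.Basic

/-!
# Decompositions of the Fourier matrix and circulant matrices
-/

set_option autoImplicit false

namespace Pool.Agent.H75C

open Finset

variable {K : Type} [Field K]

/-- All matrices `f (x + z)` are of the form `Fᵀ D F` with `D` diagonal. -/
def Rep {Γ G : Type} [Fintype Γ] [Add G] (F : Γ → G → K) : Prop :=
  ∀ f : G → K, ∃ c : Γ → K, ∀ x z, f (x + z) = ∑ w, c w * (F w x * F w z)

theorem rep_zmod [CharZero K] {a : ℕ} [NeZero a] {χ : AddChar (ZMod a) K} (hχ : χ.IsPrimitive) :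
    Rep (fun w x : ZMod a => χ (w * x)) := by
  intro f
  refine ⟨fun w => ∑ y, f y * ((a : K)⁻¹ * χ (-(w * y))), fun x z => ?_⟩
  have ha : (a : K) ≠ 0 := Nat.cast_ne_zero.2 (NeZero.ne a)
  have e : ∀ w, (∑ y, f y * ((a : K)⁻¹ * χ (-(w * y)))) * (χ (w * x) * χ (w * z)) =
      ∑ y, f y * (a : K)⁻¹ * χ (w * (x + z - y)) := by
    intro w
    rw [sum_mul]
    refine sum_congr rfl fun y _ => ?_
    have : w * (x + z - y) = -(w * y) + (w * x + w * z) := by ring
    rw [this, AddChar.map_add_eq_mul, AddChar.map_add_eq_mul]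
    ring
  simp_rw [e]
  rw [sum_comm]
  simp_rw [← mul_sum, AddChar.sum_mulShift _ hχ]
  rw [sum_eq_single (x + z)]
  · simp only [sub_self, if_true, ZMod.card]
    field_simp
  · intro u _ hu
    have : x + z - u ≠ 0 := sub_ne_zero.2 (Ne.symm hu)
    simp [this]
  · simp

theorem rep_pi {J : Type} [Fintype J] [DecidableEq J] {Γ G : J → Type} [∀ j, Fintype (Γ j)]
    [∀ j, Fintype (G j)] [∀ j, AddCommGroup (G j)] (F : ∀ j, Γ j → G j → K)
    (h : ∀ j, Rep (F j)) :
    Rep (fun (w : ∀ j, Γ j) (x : ∀ j, G j) => ∏ j, F j (w j) (x j)) := by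
  classical
  have h1 : ∀ j (y : G j), ∃ c : Γ j → K, ∀ x z, (if x + z = y then (1 : K) else 0) =
      ∑ w, c w * (F j w x * F j w z) := fun j y => h j fun u => if u = y then (1 : K) else 0
  choose c hc using h1
  intro f
  refine ⟨fun w => ∑ y, f y * ∏ j, c j (y j) (w j), fun x z => ?_⟩
  have e : ∀ y : ∀ j, G j, ∑ w : ∀ j, Γ j, (∏ j, c j (y j) (w j)) *
      ((∏ j, F j (w j) (x j)) * ∏ j, F j (w j) (z j)) = if x + z = y then 1 else 0 := by
    intro y
    simp_rw [← prod_mul_distrib]
    have e2 := (prod_univ_sum (fun j => (univ : Finset (Γ j)))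
      (fun j w => c j (y j) w * (F j w (x j) * F j w (z j)))).symm
    rw [Fintype.piFinset_univ] at e2
    rw [e2]
    simp_rw [← hc]
    rw [Finset.prod_ite_zero]
    simp only [mem_univ, forall_const, prod_const_one]
    congr 1
    rw [eq_iff_iff]
    constructor
    · intro h
      funext j
      exact h j
    · intro h j
      rw [← h]
      rfl
  simp_rw [sum_mul, mul_assoc]
  rw [sum_comm]
  simp_rw [← mul_sum, e]
  simp

/-- A map to another group through which sums can be recovered. -/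
def IsEmb {G Γ : Type} [Add G] [Add Γ] (φ : G → Γ) : Prop :=
  ∃ ψ : Γ → G, ∀ x z, ψ (φ x + φ z) = x + z

theorem IsEmb.injective {G Γ : Type} [AddCommGroup G] [Add Γ] {φ : G → Γ} (h : IsEmb φ) :
    Function.Injective φ := by
  obtain ⟨ψ, hψ⟩ := h
  intro x y hxy
  have h1 := hψ x 0
  have h2 := hψ y 0
  rw [add_zero] at h1 h2
  rw [← h1, ← h2, hxy]

theorem rep_emb {Γ G H : Type} [Fintype Γ] [Add G] [Add H] {F : Γ → H → K} (h : Rep F)
    {φ : G → H} (hφ : IsEmb φ) : Rep (fun w x => F w (φ x)) := by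
  intro f
  obtain ⟨ψ, hψ⟩ := hφ
  obtain ⟨c, hc⟩ := h fun u => f (ψ u)
  refine ⟨c, fun x z => ?_⟩
  rw [← hc, hψ]

theorem Sp.emb {X Y Z : Type} [Fintype Z] {e : ℕ} {S : X → Y → K} (h : Sp e S) {φ : Z → Y}
    (hφ : Function.Injective φ) : Sp e (fun x z => S x (φ z)) := by
  classical
  intro x
  obtain ⟨T, h1, h2⟩ := h x
  refine ⟨univ.filter fun z => φ z ∈ T, ?_, fun z hz => ?_⟩
  · refine (card_le_card_of_injOn φ ?_ hφ.injOn).trans h1
    intro z hz
    exact (mem_filter.1 hz).2
  · exact mem_filter.2 ⟨mem_univ _, h2 _ hz⟩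

/-- The expansion of a product of sums, with a threshold. -/
theorem pi_decomp {J : Type} [Fintype J] [DecidableEq J] {Γ G : J → Type} [∀ j, Fintype (Γ j)]
    [∀ j, Fintype (G j)] (F L S : ∀ j, Γ j → G j → K)
    (hF : ∀ j w x, F j w x = L j w x + S j w x) (r e e' : J → ℕ) (hL : ∀ j, FR (r j) (L j))
    (hS : ∀ j, Sp (e j) (S j)) (hS' : ∀ j, Sp (e' j) (fun x w => S j w x)) (t : ℕ) :
    ∃ L' S' : (∀ j, Γ j) → (∀ j, G j) → K,
      (∀ w x, ∏ j, F j (w j) (x j) = L' w x + S' w x) ∧
      FR (∑ T ∈ (univ : Finset J).powerset.filter (fun T => t ≤ T.card),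
        ∏ j, if j ∈ T then r j else Fintype.card (G j)) L' ∧
      Sp (∑ T ∈ (univ : Finset J).powerset.filter (fun T => ¬ t ≤ T.card),
        ∏ j, if j ∈ T then Fintype.card (G j) else e j) S' ∧
      Sp (∑ T ∈ (univ : Finset J).powerset.filter (fun T => ¬ t ≤ T.card),
        ∏ j, if j ∈ T then Fintype.card (Γ j) else e' j) (fun x w => S' w x) := by
  classical
  set A : Finset J → (∀ j, Γ j) → (∀ j, G j) → K := fun T w x =>
    ∏ j, (if j ∈ T then L j (w j) (x j) else S j (w j) (x j)) with hA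
  refine ⟨fun w x => ∑ T ∈ (univ : Finset J).powerset.filter (fun T => t ≤ T.card), A T w x,
    fun w x => ∑ T ∈ (univ : Finset J).powerset.filter (fun T => ¬ t ≤ T.card), A T w x,
    ?_, ?_, ?_, ?_⟩
  · intro w x
    beta_reduce
    rw [sum_filter_add_sum_filter_not]
    simp_rw [hF]
    rw [Finset.prod_add]
    refine sum_congr rfl fun T _ => ?_
    rw [hA]
    beta_reduce
    rw [Finset.prod_ite]
    congr 1
    · refine prod_congr ?_ fun _ _ => rfl
      ext j
      simp
    · refine prod_congr ?_ fun _ _ => rfl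
      ext j
      simp
  · refine FR.sum _ _ _ fun T _ => ?_
    have h1 := FR.pi (K := K) (X := Γ) (Y := G)
      (fun j => if j ∈ T then r j else Fintype.card (G j))
      (fun j w x => if j ∈ T then L j w x else S j w x) (fun j => by
        by_cases hj : j ∈ T
        · simpa [hj] using hL j
        · simpa [hj] using FR.cols (S j))
    exact h1
  · intro w
    choose U hU1 hU2 using fun j => hS j (w j)
    refine ⟨((univ : Finset J).powerset.filter (fun T => ¬ t ≤ T.card)).biUnion fun T =>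
      Fintype.piFinset fun j => if j ∈ T then univ else U j, ?_, fun x hx => ?_⟩
    · refine card_biUnion_le.trans (sum_le_sum fun T _ => ?_)
      rw [Fintype.card_piFinset]
      refine prod_le_prod (fun _ _ => Nat.zero_le _) fun j _ => ?_
      by_cases hj : j ∈ T
      · simp [hj]
      · simpa [hj] using hU1 j
    · obtain ⟨T, hT1, hT2⟩ := exists_ne_zero_of_sum_ne_zero hx
      rw [mem_biUnion]
      refine ⟨T, hT1, ?_⟩
      rw [Fintype.mem_piFinset]
      intro j
      by_cases hj : j ∈ T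
      · simp [hj]
      · have h1 := prod_ne_zero_iff.1 hT2 j (mem_univ _)
        rw [if_neg hj] at h1 ⊢
        exact hU2 j _ h1
  · intro x
    choose U hU1 hU2 using fun j => hS' j (x j)
    refine ⟨((univ : Finset J).powerset.filter (fun T => ¬ t ≤ T.card)).biUnion fun T =>
      Fintype.piFinset fun j => if j ∈ T then univ else U j, ?_, fun w hw => ?_⟩
    · refine card_biUnion_le.trans (sum_le_sum fun T _ => ?_)
      rw [Fintype.card_piFinset]
      refine prod_le_prod (fun _ _ => Nat.zero_le _) fun j _ => ?_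
      by_cases hj : j ∈ T
      · simp [hj]
      · simpa [hj] using hU1 j
    · obtain ⟨T, hT1, hT2⟩ := exists_ne_zero_of_sum_ne_zero hw
      rw [mem_biUnion]
      refine ⟨T, hT1, ?_⟩
      rw [Fintype.mem_piFinset]
      intro j
      by_cases hj : j ∈ T
      · simp [hj]
      · have h1 := prod_ne_zero_iff.1 hT2 j (mem_univ _)
        rw [if_neg hj] at h1 ⊢
        exact hU2 j _ h1

/-- The numerical bound for the rank in `pi_decomp`. -/
theorem rank_sum_le {J : Type} [Fintype J] [DecidableEq J] (r g : J → ℕ) {κ : ℝ} (h0 : 0 ≤ κ)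
    (h1 : κ ≤ 1) (hr : ∀ j, (r j : ℝ) ≤ κ * g j) (t : ℕ) :
    ((∑ T ∈ (univ : Finset J).powerset.filter (fun T => t ≤ T.card),
        ∏ j, if j ∈ T then r j else g j : ℕ) : ℝ) ≤
      2 ^ (Fintype.card J) * κ ^ t * ∏ j, (g j : ℝ) := by
  push_cast
  calc ∑ T ∈ (univ : Finset J).powerset.filter (fun T => t ≤ T.card),
        ∏ j, (if j ∈ T then (r j : ℝ) else (g j : ℝ))
      ≤ ∑ T ∈ (univ : Finset J).powerset.filter (fun T => t ≤ T.card),
        (κ ^ t * ∏ j, (g j : ℝ)) := by
        refine sum_le_sum fun T hT => ?_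
        have h2 : ∏ j, (if j ∈ T then (r j : ℝ) else (g j : ℝ)) ≤
            ∏ j, ((if j ∈ T then κ else 1) * (g j : ℝ)) := by
          refine prod_le_prod (fun j _ => by split_ifs <;> positivity) fun j _ => ?_
          split_ifs
          · exact hr j
          · rw [one_mul]
        refine h2.trans ?_
        rw [prod_mul_distrib]
        refine mul_le_mul_of_nonneg_right ?_ (prod_nonneg fun j _ => Nat.cast_nonneg _)
        rw [prod_ite, prod_const, prod_const_one, mul_one]
        refine pow_le_pow_of_le_one h0 h1 ?_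
        have h3 := (mem_filter.1 hT).2
        refine h3.trans (le_of_eq ?_)
        congr 1
        ext j
        simp
    _ ≤ _ := by
        rw [sum_const, nsmul_eq_mul, mul_assoc]
        refine mul_le_mul_of_nonneg_right ?_ (by positivity)
        have h4 := card_filter_le (univ : Finset J).powerset (fun T => t ≤ T.card)
        rw [card_powerset, card_univ] at h4
        exact_mod_cast h4

/-- The circulant matrices of `G` over `K` are sums of a matrix of rank at most `2 κ |G|` and of a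
matrix with at most `s |G|` nonzero entries. -/
def Dec (K : Type) [Field K] (G : Type) [AddCommGroup G] [Fintype G] (κ s : ℝ) : Prop :=
  ∃ (Γ : Type) (_ : Fintype Γ) (F L S : Γ → G → K) (r e e' : ℕ), Rep F ∧
    (∀ w x, F w x = L w x + S w x) ∧ FR r L ∧ Sp e S ∧ Sp e' (fun x w => S w x) ∧
    (r : ℝ) ≤ κ * Fintype.card G ∧ (e : ℝ) * e' ≤ s

theorem Dec.mono {G : Type} [AddCommGroup G] [Fintype G] {κ s κ' s' : ℝ} (h : Dec K G κ s)
    (h1 : κ ≤ κ') (h2 : s ≤ s') : Dec K G κ' s' := by
  obtain ⟨Γ, i, F, L, S, r, e, e', a1, a2, a3, a4, a5, a6, a7⟩ := h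
  exact ⟨Γ, i, F, L, S, r, e, e', a1, a2, a3, a4, a5,
    a6.trans (mul_le_mul_of_nonneg_right h1 (Nat.cast_nonneg _)), a7.trans h2⟩

theorem Dec.emb {G H : Type} [AddCommGroup G] [Fintype G] [AddCommGroup H] [Fintype H]
    {κ s : ℝ} (h : Dec K H κ s) {φ : G → H} (hφ : IsEmb φ) :
    Dec K G (κ * Fintype.card H / Fintype.card G) s := by
  obtain ⟨Γ, i, F, L, S, r, e, e', a1, a2, a3, a4, a5, a6, a7⟩ := h
  refine ⟨Γ, i, fun w x => F w (φ x), fun w x => L w (φ x), fun w x => S w (φ x), r, e, e',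
    rep_emb a1 hφ, fun w x => a2 w _, a3.reindex id φ, a4.emb hφ.injective, fun x => a5 (φ x),
    ?_, a7⟩
  have hG : (0 : ℝ) < Fintype.card G := Nat.cast_pos.2 (Fintype.card_pos_iff.2 ⟨0⟩)
  rw [div_mul_cancel₀ _ hG.ne']
  exact a6

theorem Dec.equiv {G H : Type} [AddCommGroup G] [Fintype G] [AddCommGroup H] [Fintype H]
    {κ s : ℝ} (h : Dec K H κ s) (φ : G ≃+ H) : Dec K G κ s := by
  have h1 := h.emb (φ := (φ : G → H)) ⟨fun y => φ.symm y, fun x z => by
    beta_reduce
    rw [← map_add, AddEquiv.symm_apply_apply]⟩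
  refine h1.mono (le_of_eq ?_) le_rfl
  have hG : (0 : ℝ) < Fintype.card G := Nat.cast_pos.2 (Fintype.card_pos_iff.2 ⟨0⟩)
  rw [Fintype.card_congr φ.toEquiv] at hG ⊢
  field_simp

theorem Dec.pi {J : Type} [Fintype J] [DecidableEq J] {G : J → Type} [∀ j, AddCommGroup (G j)]
    [∀ j, Fintype (G j)] {κ : ℝ} {s : J → ℝ} (h0 : 0 ≤ κ) (h1 : κ ≤ 1)
    (h : ∀ j, Dec K (G j) κ (s j)) :
    Dec K (∀ j, G j) (2 ^ (Fintype.card J) * κ) (∏ j, s j) := by
  choose Γ i F L S r e e' a1 a2 a3 a4 a5 a6 a7 using h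
  obtain ⟨L', S', b1, b2, b3, b4⟩ := pi_decomp F L S a2 r e e' a3 a4 a5 1
  have e1 : ((univ : Finset J).powerset.filter (fun T => ¬ 1 ≤ T.card)) = {∅} := by
    ext T
    simp
  rw [e1] at b3 b4
  rw [sum_singleton] at b3 b4
  refine ⟨∀ j, Γ j, inferInstance, fun w x => ∏ j, F j (w j) (x j), L', S', _, _, _, rep_pi F a1,
    b1, b2, b3, b4, ?_, ?_⟩
  · refine (rank_sum_le r (fun j => Fintype.card (G j)) h0 h1 a6 1).trans ?_
    rw [pow_one, Fintype.card_pi]
    push_cast
    exact le_rfl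
  · push_cast
    rw [← prod_mul_distrib]
    refine prod_le_prod (fun j _ => by positivity) fun j _ => ?_
    simpa using a7 j

/-- The matrices of rational circulants. -/
theorem Dec.main [CharZero K] [Algebra ℚ K] [Module.Finite ℚ K] {G : Type} [AddCommGroup G]
    [Fintype G] {κ s : ℝ} (h : Dec K G κ s) (f : G → ℚ) :
    ∃ S : Matrix G G ℚ,
      ((univ.filter (fun p : G × G => S p.1 p.2 ≠ 0)).card : ℝ) ≤ s * Fintype.card G ∧
      ((Matrix.of (fun x y : G => f (x - y)) - S).rank : ℝ) ≤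
        2 * κ * Module.finrank ℚ K * Fintype.card G := by
  classical
  obtain ⟨Γ, i, F, L, S, r, e, e', a1, a2, a3, a4, a5, a6, a7⟩ := h
  obtain ⟨τ, hτ⟩ := LinearMap.exists_leftInverse_of_injective (Algebra.linearMap ℚ K)
    (LinearMap.ker_eq_bot.2 (algebraMap ℚ K).injective)
  have hτ' : ∀ q : ℚ, τ (algebraMap ℚ K q) = q := by
    intro q
    have := LinearMap.congr_fun hτ q
    simpa using this
  obtain ⟨c, hc⟩ := a1 fun x => algebraMap ℚ K (f x)
  -- the part of small rank
  have hA : FR (r + r) (fun x z => (∑ w, L w x * (c w * F w z)) + ∑ w, (c w * S w x) * L w z) :=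
    (a3.transpose.comp_right (fun w z => c w * F w z)).add
      (a3.comp_left (fun x w => c w * S w x))
  set B : G → G → K := fun x z => ∑ w, c w * (S w x * S w z) with hB
  have hsum : ∀ x z, algebraMap ℚ K (f (x + z)) =
      ((∑ w, L w x * (c w * F w z)) + ∑ w, (c w * S w x) * L w z) + B x z := by
    intro x z
    rw [hc, hB, ← sum_add_distrib, ← sum_add_distrib]
    refine sum_congr rfl fun w _ => ?_
    rw [a2 w x, a2 w z]
    ring
  have hBsp : Sp (e' * e) B := by
    intro x
    obtain ⟨T, hT1, hT2⟩ := a5 x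
    choose U hU1 hU2 using a4
    refine ⟨T.biUnion U, ?_, fun z hz => ?_⟩
    · refine card_biUnion_le.trans ((sum_le_sum fun w _ => hU1 w).trans ?_)
      rw [sum_const, smul_eq_mul]
      exact Nat.mul_le_mul_right _ hT1
    · obtain ⟨w, _, hw⟩ := exists_ne_zero_of_sum_ne_zero hz
      have h1 := right_ne_zero_of_mul hw
      rw [mem_biUnion]
      exact ⟨w, hT2 w (left_ne_zero_of_mul h1), hU2 w z (right_ne_zero_of_mul h1)⟩
  refine ⟨Matrix.of fun x y => τ (B x (-y)), ?_, ?_⟩
  · have h2 : (univ.filter (fun p : G × G => (Matrix.of fun x y => τ (B x (-y))) p.1 p.2 ≠ 0)).card ≤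
        (e' * e) * Fintype.card G := by
      choose T hT1 hT2 using hBsp
      have h3 : (univ.filter (fun p : G × G => (Matrix.of fun x y => τ (B x (-y))) p.1 p.2 ≠ 0)) ⊆
          (univ : Finset G).biUnion fun x => (T x).image fun z => (x, -z) := by
        intro p hp
        have h4 := (mem_filter.1 hp).2
        rw [mem_biUnion]
        refine ⟨p.1, mem_univ _, ?_⟩
        rw [mem_image]
        refine ⟨-p.2, hT2 p.1 _ fun h0 => h4 ?_, ?_⟩
        · rw [Matrix.of_apply, h0, map_zero]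
        · rw [neg_neg]
      refine (card_le_card h3).trans (card_biUnion_le.trans ?_)
      refine (sum_le_sum fun x _ => card_image_le.trans (hT1 x)).trans ?_
      rw [sum_const, smul_eq_mul, card_univ, mul_comm]
    calc ((univ.filter (fun p : G × G =>
          (Matrix.of fun x y => τ (B x (-y))) p.1 p.2 ≠ 0)).card : ℝ) ≤
          (((e' * e) * Fintype.card G : ℕ) : ℝ) := Nat.cast_le.2 h2
      _ ≤ _ := by
          push_cast
          refine mul_le_mul_of_nonneg_right ?_ (Nat.cast_nonneg _)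
          rw [mul_comm]
          exact a7
  · have h5 := ((hA.toRat τ).reindex id fun y : G => -y).rank_le
    have h6 : (Matrix.of (fun x y : G => f (x - y)) - Matrix.of fun x y => τ (B x (-y))) =
        Matrix.of (fun (z w : G) => τ ((∑ w_1, L w_1 (id z) * (c w_1 * F w_1 (-w))) +
          ∑ w_1, c w_1 * S w_1 (id z) * L w_1 (-w))) := by
      ext x y
      rw [Matrix.sub_apply, Matrix.of_apply, Matrix.of_apply, Matrix.of_apply, sub_eq_iff_eq_add,
        ← map_add, id, ← hsum, hτ', sub_eq_add_neg]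
    rw [h6]
    calc _ ≤ (((r + r) * Module.finrank ℚ K : ℕ) : ℝ) := Nat.cast_le.2 h5
      _ ≤ _ := by
          push_cast
          have h7 : (0 : ℝ) ≤ Module.finrank ℚ K := Nat.cast_nonneg _
          nlinarith [mul_le_mul_of_nonneg_right a6 h7]

end Pool.Agent.H75C
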