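import Pool.Agent.H75C.Count
import Pool.Agent.H75C.Dec

/-!
# Quadratic functions on cyclic groups, and powers of a fixed cyclic group
-/

set_option autoImplicit false

namespace Pool.Agent.H75C

open Finset Real

variable {K : Type} [Field K]

theorem chirp {a M : ℕ} [NeZero a] {ζ : K} (hM : M ≠ 0) (hζ : IsPrimitiveRoot ζ M)
    (ha : 2 * a ∣ M) :
    ∃ (χ : AddChar (ZMod a) K) (h1 : ZMod a → K), χ.IsPrimitive ∧ (∀ x, h1 x ≠ 0) ∧
      ∀ x y, h1 (x + y) = h1 x * h1 y * χ (x * y) := by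
  obtain ⟨m, hm⟩ := ha
  have hm0 : 0 < M := Nat.pos_of_ne_zero hM
  have hξ : IsPrimitiveRoot (ζ ^ m) (2 * a) := hζ.pow hm0 (by rw [hm]; ring)
  set ξ := ζ ^ m with hξdef
  have ha0 : 0 < 2 * a := Nat.mul_pos two_pos (Nat.pos_of_ne_zero (NeZero.ne a))
  have hω : IsPrimitiveRoot (ξ ^ 2) a := hξ.pow ha0 rfl
  set ω := ξ ^ 2 with hωdef
  have hξ1 : ξ ^ (2 * a) = 1 := hξ.pow_eq_one
  set θ := ξ ^ (a + 1) with hθ
  have hθ2a : θ ^ (2 * a) = 1 := by
    rw [hθ, ← pow_mul, mul_comm (a + 1), pow_mul, hξ1, one_pow]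
  have hθaa : θ ^ (a * a) = 1 := by
    obtain ⟨b, hb⟩ := Nat.even_mul_succ_self a
    have : (a + 1) * (a * a) = (2 * a) * b := by
      have h2 : a * (a + 1) = b + b := hb
      calc (a + 1) * (a * a) = a * (a * (a + 1)) := by ring
        _ = a * (b + b) := by rw [h2]
        _ = (2 * a) * b := by ring
    rw [hθ, ← pow_mul, this, pow_mul, hξ1, one_pow]
  have hθ2 : θ ^ 2 = ω := by
    rw [hθ, ← pow_mul]
    have : (a + 1) * 2 = 2 * a + 2 := by ring
    rw [this, pow_add, hξ1, one_mul]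
  have hmod : ∀ u : ℕ, θ ^ ((u % a) * (u % a)) = θ ^ (u * u) := by
    intro u
    conv_rhs => rw [← Nat.mod_add_div u a]
    have : (u % a + a * (u / a)) * (u % a + a * (u / a)) =
        (u % a) * (u % a) + (2 * a) * ((u % a) * (u / a)) + (a * a) * ((u / a) * (u / a)) := by
      ring
    rw [this, pow_add, pow_add, pow_mul θ (2 * a), hθ2a, one_pow, pow_mul θ (a * a), hθaa,
      one_pow, mul_one, mul_one]
  have hω1 : ω ^ a = 1 := hω.pow_eq_one
  refine ⟨AddChar.zmodChar a hω1, fun x => θ ^ (x.val * x.val),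
    AddChar.zmodChar_primitive_of_primitive_root a hω, fun x => ?_, fun x y => ?_⟩
  · refine pow_ne_zero _ ?_
    intro h0
    rw [h0, zero_pow ha0.ne'] at hθ2a
    exact zero_ne_one hθ2a
  · beta_reduce
    rw [AddChar.zmodChar_apply, ZMod.val_add, hmod, ZMod.val_mul]
    have h3 : ω ^ (x.val * y.val % a) = ω ^ (x.val * y.val) := by
      conv_rhs => rw [← Nat.mod_add_div (x.val * y.val) a]
      rw [pow_add, pow_mul, hω1, one_pow, mul_one]
    rw [h3]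
    have h4 : (x.val + y.val) * (x.val + y.val) =
        x.val * x.val + y.val * y.val + 2 * (x.val * y.val) := by ring
    rw [h4, pow_add, pow_add, pow_mul θ 2, hθ2]

/-- The Fourier matrix of `(ZMod a) ^ ι`. -/
theorem comp_cyc [CharZero K] {a M : ℕ} [NeZero a] {ζ : K} (hM : M ≠ 0)
    (hζ : IsPrimitiveRoot ζ M) (ha : 2 * a ∣ M) {τ : ℝ} (h0 : 0 < τ) (h1 : τ ≤ 1) :
    ∃ χ : AddChar (ZMod a) K, χ.IsPrimitive ∧ ∀ (ι : Type) [Fintype ι] [DecidableEq ι],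
      (2 + 4 * a) / τ ≤ (Fintype.card ι : ℝ) →
      ∃ (L S : (ι → ZMod a) → (ι → ZMod a) → K) (r e : ℕ),
        (∀ w x, ∏ i, χ (w i * x i) = L w x + S w x) ∧ FR r L ∧ Sp e S ∧
        Sp e (fun x w => S w x) ∧
        (r : ℝ) ≤ 2 ^ a * (a : ℝ) ^ (Fintype.card ι) * exp (-(τ ^ 2 / 256) * (Fintype.card ι)) ∧
        (e : ℝ) ≤ exp (τ * (log a - log τ + 1) * (Fintype.card ι)) := by
  obtain ⟨χ, h1f, b1, b2, b3⟩ := chirp hM hζ ha
  refine ⟨χ, b1, fun ι _ _ hn => ?_⟩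
  obtain ⟨L, S, c1, c2, c3, c4⟩ := cyc_decomp ι b1 h1f b2 b3 ((Fintype.card ι / a : ℕ) : ℤ)
    ⌊τ * Fintype.card ι⌋₊
  exact ⟨L, S, _, _, c1, c2, c3, c4, atyp_card ι a h0 h1 hn, spr_card ι a h0 h1⟩

theorem rep_cyc [CharZero K] {a : ℕ} [NeZero a] {χ : AddChar (ZMod a) K} (hχ : χ.IsPrimitive)
    (ι : Type) [Fintype ι] [DecidableEq ι] :
    Rep (fun w x : ι → ZMod a => ∏ i, χ (w i * x i)) :=
  rep_pi (fun (_ : ι) (w x : ZMod a) => χ (w * x)) fun _ => rep_zmod hχ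

/-- The trivial decomposition. -/
theorem Dec.triv {Γ G : Type} [Fintype Γ] [AddCommGroup G] [Fintype G] {F : Γ → G → K}
    (h : Rep F) : Dec K G 0 ((Fintype.card G : ℝ) * Fintype.card Γ) := by
  refine ⟨Γ, inferInstance, F, fun _ _ => 0, F, 0, Fintype.card G, Fintype.card Γ, h,
    fun w x => (zero_add _).symm, FR.zero, fun x => ⟨univ, le_rfl, fun _ _ => mem_univ _⟩,
    fun x => ⟨univ, le_rfl, fun _ _ => mem_univ _⟩, by simp, le_rfl⟩

/-- `τ (1 - log τ)` can be made small. -/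
theorem exists_tau {δ : ℝ} (hδ : 0 < δ) : ∃ τ : ℝ, 0 < τ ∧ τ ≤ 1 ∧ τ * (1 - log τ) ≤ δ := by
  set y : ℝ := 4 / δ with hy
  have hy0 : 0 < y := by positivity
  refine ⟨exp (-y), exp_pos _, ?_, ?_⟩
  · rw [exp_le_one_iff]
    linarith
  · rw [log_exp, sub_neg_eq_add, exp_neg]
    have h1 : (1 + y / 2) ^ 2 ≤ exp y := by
      have h2 := Real.add_one_le_exp (y / 2)
      have h3 : exp y = (exp (y / 2)) ^ 2 := by
        rw [← exp_nat_mul]
        congr 1
        push_cast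
        ring
      rw [h3]
      refine pow_le_pow_left₀ (by positivity) (by linarith) 2
    have h4 : (1 + y) * (y / 4) ≤ exp y := by nlinarith
    have h5 : y * δ = 4 := by
      rw [hy]
      field_simp
    rw [inv_mul_le_iff₀ (exp_pos y)]
    have h6 : (1 + y) = (1 + y) * (y / 4) * δ := by
      have : (1 + y) * (y / 4) * δ = (1 + y) * (y * δ) / 4 := by ring
      rw [this, h5]
      ring
    rw [h6]
    exact mul_le_mul_of_nonneg_right h4 hδ.le

/-- Powers of a fixed cyclic group. -/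
theorem small_dec [CharZero K] {a M : ℕ} [NeZero a] {ζ : K} (hM : M ≠ 0)
    (hζ : IsPrimitiveRoot ζ M) (ha : 2 * a ∣ M) (ha2 : 2 ≤ a) {δ : ℝ} (hδ : 0 < δ) {η : ℝ}
    (hη : 0 < η) :
    ∃ C : ℝ, 1 ≤ C ∧ ∀ (ι : Type) [Fintype ι] [DecidableEq ι],
      Dec K (ι → ZMod a) η (C * ((Fintype.card (ι → ZMod a) : ℕ) : ℝ) ^ δ) := by
  obtain ⟨τ, t0, t1, t2⟩ := exists_tau (δ := δ / 8) (by positivity)
  obtain ⟨χ, hχ, hd⟩ := comp_cyc (K := K) hM hζ ha t0 t1
  have ha1' : (1 : ℝ) ≤ a := by exact_mod_cast (by omega : 1 ≤ a)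
  have ha2' : (2 : ℝ) ≤ a := by exact_mod_cast ha2
  -- the threshold
  obtain ⟨N1, hN1⟩ := exists_nat_ge ((2 + 4 * a) / τ)
  obtain ⟨N2, hN2⟩ := exists_nat_ge ((a * log 2 - log η) / (τ ^ 2 / 256))
  set N := max N1 N2 with hN
  refine ⟨((a : ℝ) ^ N) * (a : ℝ) ^ N, ?_, fun ι _ _ => ?_⟩
  · exact one_le_mul_of_one_le_of_one_le (one_le_pow₀ ha1') (one_le_pow₀ ha1')
  set n := Fintype.card ι with hn
  have hcard : ((Fintype.card (ι → ZMod a) : ℕ) : ℝ) = (a : ℝ) ^ n := by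
    rw [Fintype.card_fun, ZMod.card]
    push_cast
    rfl
  have h1C : (1 : ℝ) ≤ ((a : ℝ) ^ N) * (a : ℝ) ^ N :=
    one_le_mul_of_one_le_of_one_le (one_le_pow₀ ha1') (one_le_pow₀ ha1')
  have hpow1 : (1 : ℝ) ≤ ((a : ℝ) ^ n) ^ δ := one_le_rpow (one_le_pow₀ ha1') hδ.le
  by_cases hnN : N ≤ n
  · have hn1 : (2 + 4 * a) / τ ≤ (n : ℝ) :=
      hN1.trans (Nat.cast_le.2 ((le_max_left _ _).trans hnN))
    have hn2 : (a * log 2 - log η) / (τ ^ 2 / 256) ≤ (n : ℝ) :=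
      hN2.trans (Nat.cast_le.2 ((le_max_right _ _).trans hnN))
    obtain ⟨L, S, r, e, c1, c2, c3, c4, c5, c6⟩ := hd ι hn1
    refine ⟨ι → ZMod a, inferInstance, fun w x => ∏ i, χ (w i * x i), L, S, r, e, e,
      rep_cyc hχ ι, c1, c2, c3, c4, ?_, ?_⟩
    · refine c5.trans ?_
      rw [hcard]
      have h3 : (2 : ℝ) ^ a * exp (-(τ ^ 2 / 256) * n) ≤ η := by
        rw [← exp_log (show (0 : ℝ) < 2 ^ a by positivity), ← exp_add, log_pow]
        conv_rhs => rw [← exp_log hη]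
        rw [exp_le_exp]
        rw [div_le_iff₀ (by positivity)] at hn2
        linarith
      calc (2 : ℝ) ^ a * (a : ℝ) ^ n * exp (-(τ ^ 2 / 256) * n) =
            (2 : ℝ) ^ a * exp (-(τ ^ 2 / 256) * n) * (a : ℝ) ^ n := by ring
        _ ≤ η * (a : ℝ) ^ n := mul_le_mul_of_nonneg_right h3 (by positivity)
    · rw [hcard]
      have h4 : (e : ℝ) * e ≤ ((a : ℝ) ^ n) ^ δ := by
        have h5 : (e : ℝ) * e ≤ exp (τ * (log a - log τ + 1) * n) *
            exp (τ * (log a - log τ + 1) * n) :=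
          mul_le_mul c6 c6 (Nat.cast_nonneg _) (exp_pos _).le
        refine h5.trans ?_
        rw [← exp_add, rpow_def_of_pos (by positivity), exp_le_exp, log_pow]
        have h6 : log 2 ≤ log a := log_le_log (by norm_num) ha2'
        have h7 : (1 / 2 : ℝ) ≤ log 2 := by
          have := Real.log_two_gt_d9
          linarith
        have h8 : τ ≤ δ / 8 := by
          have : log τ ≤ 0 := log_nonpos t0.le t1
          nlinarith
        have h9 : τ * (log a - log τ + 1) * 2 ≤ log a * δ := by nlinarith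
        have h10 : (0 : ℝ) ≤ n := Nat.cast_nonneg _
        nlinarith
      exact h4.trans (le_mul_of_one_le_left (by positivity) h1C)
  · refine (Dec.triv (rep_cyc hχ ι)).mono hη.le ?_
    rw [hcard]
    have h5 : (a : ℝ) ^ n ≤ (a : ℝ) ^ N := pow_le_pow_right₀ ha1' (not_le.1 hnN).le
    calc (a : ℝ) ^ n * (a : ℝ) ^ n ≤ (a : ℝ) ^ N * (a : ℝ) ^ N :=
          mul_le_mul h5 h5 (by positivity) (by positivity)
      _ ≤ _ := le_mul_of_one_le_right (by positivity) hpow1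

end Pool.Agent.H75C
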