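import Pool.Agent.H75C.Cyc

/-!
# Counting atypical and sparse vectors
-/

set_option autoImplicit false

namespace Pool.Agent.H75C

open Finset Real

theorem idx_le (x : ℤ) : ((Equiv.intEquivNat x : ℕ) : ℤ) ≤ 2 * |x| := by
  rcases x with n | n
  · have h : Equiv.intEquivNat (Int.ofNat n) = 2 * n := rfl
    rw [h]
    simp
  · have h : Equiv.intEquivNat (Int.negSucc n) = 2 * n + 1 := rfl
    rw [h, Int.negSucc_eq, abs_neg, abs_of_nonneg (by positivity)]
    push_cast
    linarith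

/-- Large deviations of the number of coordinates in a set. -/
theorem dev_card (ι : Type) [Fintype ι] [DecidableEq ι] (a : ℕ) [NeZero a] (B : Finset (ZMod a))
    {ρ : ℝ} (h0 : 0 < ρ) (h1 : ρ ≤ 1) :
    ((univ.filter fun w : ι → ZMod a => (B.card : ℝ) * (Fintype.card ι) / a +
      ρ * (Fintype.card ι) ≤ ((univ.filter fun i => w i ∈ B).card : ℝ)).card : ℝ) ≤
      (a : ℝ) ^ (Fintype.card ι) * exp (-(ρ ^ 2 / 4) * (Fintype.card ι)) := by
  set n := Fintype.card ι with hn
  have ha : (0 : ℝ) < a := Nat.cast_pos.2 (Nat.pos_of_ne_zero (NeZero.ne a))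
  set l : ℝ := ρ / 2 with hl
  have hl0 : 0 < l := by positivity
  have hl1 : l ≤ 1 := by rw [hl]; linarith
  set α : ℝ := B.card / a with hα
  have hBa : (B.card : ℝ) ≤ a := by
    have := B.card_le_univ
    rw [ZMod.card] at this
    exact_mod_cast this
  have hα0 : 0 ≤ α := by positivity
  have hα1 : α ≤ 1 := by
    rw [hα, div_le_one ha]
    exact hBa
  -- the exponential moment
  have e1 : ∑ w : ι → ZMod a, ∏ i, (if w i ∈ B then exp l else 1) =
      ((a : ℝ) * (1 + α * (exp l - 1))) ^ n := by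
    have h2 := (Finset.prod_univ_sum (fun _ : ι => (univ : Finset (ZMod a)))
      (fun _ b => if b ∈ B then exp l else (1 : ℝ)))
    rw [Fintype.piFinset_univ] at h2
    rw [← h2, prod_const, card_univ, ← hn]
    congr 1
    have h3 : ∀ b : ZMod a, (if b ∈ B then exp l else (1 : ℝ)) =
        1 + if b ∈ B then (exp l - 1) else 0 := by
      intro b
      split_ifs <;> ring
    simp_rw [h3]
    rw [sum_add_distrib, ← sum_filter, filter_mem_eq_inter, univ_inter, sum_const, sum_const,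
      card_univ, ZMod.card]
    simp only [nsmul_eq_mul, mul_one, hα]
    field_simp
  have e2 : ∀ w : ι → ZMod a, ∏ i, (if w i ∈ B then exp l else (1 : ℝ)) =
      exp (l * (univ.filter fun i => w i ∈ B).card) := by
    intro w
    rw [← prod_filter, prod_const, ← exp_nat_mul, mul_comm]
  have e3 : ((a : ℝ) * (1 + α * (exp l - 1))) ^ n ≤
      (a : ℝ) ^ n * exp (α * (l + l ^ 2) * n) := by
    rw [mul_pow]
    refine mul_le_mul_of_nonneg_left ?_ (by positivity)
    have h4 : exp l - 1 ≤ l + l ^ 2 := by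
      have := Real.abs_exp_sub_one_sub_id_le (x := l) (by rw [abs_of_pos hl0]; exact hl1)
      have := (abs_le.1 this).2
      linarith
    have h5 : (0 : ℝ) ≤ exp l - 1 := by
      have := Real.add_one_le_exp l
      linarith
    have h6 : 1 + α * (exp l - 1) ≤ exp (α * (l + l ^ 2)) := by
      have h7 := Real.add_one_le_exp (α * (l + l ^ 2))
      have h8 := mul_le_mul_of_nonneg_left h4 hα0
      linarith
    calc (1 + α * (exp l - 1)) ^ n ≤ (exp (α * (l + l ^ 2))) ^ n :=
          pow_le_pow_left₀ (by positivity) h6 n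
      _ = exp (α * (l + l ^ 2) * n) := by
          rw [← exp_nat_mul, mul_comm]
  set T := univ.filter fun w : ι → ZMod a => (B.card : ℝ) * n / a +
      ρ * n ≤ ((univ.filter fun i => w i ∈ B).card : ℝ) with hT
  have e4 : (T.card : ℝ) * exp (l * ((α + ρ) * n)) ≤
      ∑ w : ι → ZMod a, ∏ i, (if w i ∈ B then exp l else (1 : ℝ)) := by
    calc (T.card : ℝ) * exp (l * ((α + ρ) * n)) = ∑ w ∈ T, exp (l * ((α + ρ) * n)) := by
          rw [sum_const, nsmul_eq_mul]
      _ ≤ ∑ w ∈ T, ∏ i, (if w i ∈ B then exp l else (1 : ℝ)) := by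
          refine sum_le_sum fun w hw => ?_
          rw [e2, exp_le_exp]
          refine mul_le_mul_of_nonneg_left ?_ hl0.le
          have h9 := (mem_filter.1 hw).2
          have h10 : (α + ρ) * n = (B.card : ℝ) * n / a + ρ * n := by
            rw [hα]
            ring
          rw [h10]
          exact h9
      _ ≤ _ := by
          refine sum_le_sum_of_subset_of_nonneg (subset_univ _) fun w _ _ => ?_
          rw [e2]
          positivity
  have e5 : (T.card : ℝ) * exp (l * ((α + ρ) * n)) ≤ (a : ℝ) ^ n * exp (α * (l + l ^ 2) * n) := by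
    rw [e1] at e4
    exact e4.trans e3
  have e6 : (T.card : ℝ) ≤ (a : ℝ) ^ n * exp (α * (l + l ^ 2) * n) *
      exp (-(l * ((α + ρ) * n))) := by
    have h11 := mul_le_mul_of_nonneg_right e5 (exp_pos (-(l * ((α + ρ) * n)))).le
    rw [mul_assoc, ← exp_add, add_neg_cancel, exp_zero, mul_one] at h11
    exact h11
  refine e6.trans ?_
  rw [mul_assoc, ← exp_add]
  refine mul_le_mul_of_nonneg_left ?_ (by positivity)
  rw [exp_le_exp]
  have h12 : α * l ^ 2 * n ≤ l ^ 2 * n := by
    have : α * (l ^ 2 * n) ≤ 1 * (l ^ 2 * n) := mul_le_mul_of_nonneg_right hα1 (by positivity)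
    linarith
  rw [hl] at h12 ⊢
  nlinarith [h12]

theorem atyp_card (ι : Type) [Fintype ι] [DecidableEq ι] (a : ℕ) [NeZero a] {τ : ℝ}
    (h0 : 0 < τ) (h1 : τ ≤ 1) (hn : (2 + 4 * a) / τ ≤ (Fintype.card ι : ℝ)) :
    ((atyp ι a ((Fintype.card ι / a : ℕ) : ℤ) ⌊τ * Fintype.card ι⌋₊).card : ℝ) ≤
      2 ^ a * (a : ℝ) ^ (Fintype.card ι) * exp (-(τ ^ 2 / 256) * (Fintype.card ι)) := by
  set n := Fintype.card ι with hndef
  have ha : (0 : ℝ) < a := Nat.cast_pos.2 (Nat.pos_of_ne_zero (NeZero.ne a))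
  set Bad : Finset (ZMod a) → Finset (ι → ZMod a) := fun B =>
    univ.filter fun w : ι → ZMod a => (B.card : ℝ) * n / a + (τ / 8) * n ≤
      ((univ.filter fun i => w i ∈ B).card : ℝ) with hBad
  have hsub : atyp ι a ((n / a : ℕ) : ℤ) ⌊τ * n⌋₊ ⊆ (univ : Finset (Finset (ZMod a))).biUnion Bad := by
    intro v hv
    rw [atyp, mem_filter] at hv
    have h2 := hv.2
    -- real version
    have h3 : (⌊τ * n⌋₊ : ℝ) < ∑ b, 2 * |(cnt v b : ℝ) - ((n / a : ℕ) : ℝ)| := by
      have h4 : ((∑ b, Equiv.intEquivNat ((cnt v b : ℤ) - ((n / a : ℕ) : ℤ)) : ℕ) : ℝ) ≤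
          ∑ b, 2 * |(cnt v b : ℝ) - ((n / a : ℕ) : ℝ)| := by
        push_cast
        refine sum_le_sum fun b _ => ?_
        have h5 := idx_le ((cnt v b : ℤ) - ((n / a : ℕ) : ℤ))
        have h6 : (((Equiv.intEquivNat ((cnt v b : ℤ) - ((n / a : ℕ) : ℤ)) : ℕ) : ℤ) : ℝ) ≤
            ((2 * |(cnt v b : ℤ) - ((n / a : ℕ) : ℤ)| : ℤ) : ℝ) := Int.cast_le.2 h5
        push_cast at h6
        exact h6
      exact lt_of_lt_of_le (Nat.cast_lt.2 h2) h4
    have h7 : τ * n - 1 < (⌊τ * n⌋₊ : ℝ) := by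
      have := Nat.lt_floor_add_one (τ * n)
      linarith
    have hc0 : ((n / a : ℕ) : ℝ) ≤ (n : ℝ) / a := Nat.cast_div_le
    have hc1 : (n : ℝ) / a ≤ ((n / a : ℕ) : ℝ) + 1 := by
      rw [div_le_iff₀ ha]
      have := Nat.lt_div_mul_add (a := n) (b := a) (Nat.pos_of_ne_zero (NeZero.ne a))
      have h8 : (n : ℝ) < ((n / a * a + a : ℕ) : ℝ) := Nat.cast_lt.2 this
      push_cast at h8
      linarith
    have h9 : ∑ b, |(cnt v b : ℝ) - ((n / a : ℕ) : ℝ)| ≤
        (∑ b, |(cnt v b : ℝ) - (n : ℝ) / a|) + a := by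
      have h90 : (∑ b, |(cnt v b : ℝ) - (n : ℝ) / a|) + a =
          ∑ b, (|(cnt v b : ℝ) - (n : ℝ) / a| + 1) := by
        rw [sum_add_distrib, sum_const, card_univ, ZMod.card, nsmul_eq_mul, mul_one]
      rw [h90]
      refine sum_le_sum fun b _ => ?_
      have h10 : (cnt v b : ℝ) - ((n / a : ℕ) : ℝ) = ((cnt v b : ℝ) - (n : ℝ) / a) +
          ((n : ℝ) / a - ((n / a : ℕ) : ℝ)) := by ring
      rw [h10]
      refine (abs_add_le _ _).trans (add_le_add le_rfl ?_)
      rw [abs_le]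
      constructor <;> linarith
    have hsum0 : ∑ b, ((cnt v b : ℝ) - (n : ℝ) / a) = 0 := by
      rw [sum_sub_distrib, sum_const, card_univ, ZMod.card, nsmul_eq_mul]
      have h11 : ∑ b, (cnt v b : ℝ) = n := by
        have h12 : ∑ b, cnt v b = n := by
          rw [hndef, ← card_univ, card_eq_sum_card_fiberwise (f := v) (t := univ)
            (fun _ _ => mem_coe.2 (mem_univ _))]
          rfl
        rw [← h12]
        push_cast
        rfl
      rw [h11]
      field_simp
      ring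
    set B : Finset (ZMod a) := univ.filter fun b => 0 < (cnt v b : ℝ) - (n : ℝ) / a with hB
    have h13 : ∑ b, |(cnt v b : ℝ) - (n : ℝ) / a| =
        2 * ∑ b ∈ B, ((cnt v b : ℝ) - (n : ℝ) / a) := by
      have h14 : ∀ x : ℝ, |x| = 2 * (if 0 < x then x else 0) - x := by
        intro x
        split_ifs with hx
        · rw [abs_of_pos hx]; ring
        · rw [abs_of_nonpos (not_lt.1 hx)]; ring
      rw [hB, sum_filter]
      conv_lhs => rw [sum_congr rfl fun b _ => h14 _]
      rw [sum_sub_distrib, hsum0, sub_zero, mul_sum]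
    have h15 : ∑ b ∈ B, ((cnt v b : ℝ) - (n : ℝ) / a) =
        ((univ.filter fun i => v i ∈ B).card : ℝ) - (B.card : ℝ) * n / a := by
      rw [sum_sub_distrib, sum_const, nsmul_eq_mul]
      congr 1
      · rw [card_eq_sum_card_fiberwise (f := v) (t := B)]
        · push_cast
          refine sum_congr rfl fun b hb => ?_
          rw [cnt]
          congr 2
          ext i
          simp only [mem_filter, mem_univ, true_and]
          constructor
          · intro h
            exact ⟨h ▸ hb, h⟩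
          · intro h
            exact h.2
        · intro i hi
          simp only [coe_filter, mem_univ, true_and, Set.mem_ofPred_eq] at hi
          exact mem_coe.2 hi
      · ring
    rw [mem_biUnion]
    refine ⟨B, mem_univ _, ?_⟩
    rw [hBad, mem_filter]
    refine ⟨mem_univ _, ?_⟩
    have h16 : (2 + 4 * a) ≤ τ * n := by
      rw [div_le_iff₀ h0] at hn
      linarith
    rw [← mul_sum] at h3
    linarith
  have h17 : ((atyp ι a ((n / a : ℕ) : ℤ) ⌊τ * n⌋₊).card : ℝ) ≤
      ∑ B : Finset (ZMod a), ((Bad B).card : ℝ) := by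
    exact_mod_cast (card_le_card hsub).trans card_biUnion_le
  refine h17.trans ?_
  have h18 : ∀ B : Finset (ZMod a), ((Bad B).card : ℝ) ≤
      (a : ℝ) ^ n * exp (-((τ / 8) ^ 2 / 4) * n) :=
    fun B => dev_card ι a B (by positivity) (by linarith)
  calc ∑ B : Finset (ZMod a), ((Bad B).card : ℝ) ≤
        ∑ _B : Finset (ZMod a), ((a : ℝ) ^ n * exp (-((τ / 8) ^ 2 / 4) * n)) :=
        sum_le_sum fun B _ => h18 B
    _ = 2 ^ a * (a : ℝ) ^ n * exp (-(τ ^ 2 / 256) * n) := by
        rw [sum_const, card_univ, Fintype.card_finset, ZMod.card, nsmul_eq_mul]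
        push_cast
        rw [mul_assoc]
        congr 3
        ring

theorem spr_card (ι : Type) [Fintype ι] [DecidableEq ι] (a : ℕ) [NeZero a] {τ : ℝ}
    (h0 : 0 < τ) (h1 : τ ≤ 1) :
    ((spr ι a ⌊τ * Fintype.card ι⌋₊).card : ℝ) ≤
      exp (τ * (log a - log τ + 1) * (Fintype.card ι)) := by
  set n := Fintype.card ι with hn
  have ha1 : 1 ≤ a := Nat.pos_of_ne_zero (NeZero.ne a)
  have ha : (0 : ℝ) < a := Nat.cast_pos.2 ha1
  have ha1' : (1 : ℝ) ≤ a := by exact_mod_cast ha1
  set x : ℝ := τ / a with hx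
  have hx0 : 0 < x := by positivity
  have hx1 : x ≤ 1 := by
    rw [hx, div_le_one ha]
    linarith
  have e1 : ∑ z : ι → ZMod a, ∏ i, (if z i ≠ 0 then x else 1) =
      (1 + (a - 1) * x) ^ n := by
    have h2 := (Finset.prod_univ_sum (fun _ : ι => (univ : Finset (ZMod a)))
      (fun _ b => if b ≠ 0 then x else (1 : ℝ)))
    rw [Fintype.piFinset_univ] at h2
    rw [← h2, prod_const, card_univ, ← hn]
    congr 1
    rw [← Finset.add_sum_erase univ _ (mem_univ (0 : ZMod a))]
    have h3 : ∑ b ∈ univ.erase (0 : ZMod a), (if b ≠ 0 then x else (1 : ℝ)) =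
        ∑ b ∈ univ.erase (0 : ZMod a), x := by
      refine sum_congr rfl fun b hb => ?_
      rw [if_pos (ne_of_mem_erase hb)]
    rw [h3, sum_const, card_erase_of_mem (mem_univ _), card_univ, ZMod.card, nsmul_eq_mul,
      Nat.cast_sub ha1]
    simp
  have e2 : ∀ z : ι → ZMod a, ∏ i, (if z i ≠ 0 then x else (1 : ℝ)) =
      x ^ (univ.filter fun i => z i ≠ 0).card := by
    intro z
    rw [← prod_filter, prod_const]
  have e3 : (1 + ((a : ℝ) - 1) * x) ^ n ≤ exp (τ * n) := by
    have h4 : 1 + ((a : ℝ) - 1) * x ≤ exp τ := by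
      have h5 := Real.add_one_le_exp τ
      have h6 : ((a : ℝ) - 1) * x ≤ τ := by
        have : (a : ℝ) * x = τ := by
          rw [hx]
          field_simp
        nlinarith
      linarith
    calc (1 + ((a : ℝ) - 1) * x) ^ n ≤ (exp τ) ^ n := by
          refine pow_le_pow_left₀ ?_ h4 n
          have : (0 : ℝ) ≤ (a : ℝ) - 1 := by linarith
          positivity
      _ = exp (τ * n) := by
          rw [← exp_nat_mul, mul_comm]
  have e4 : ((spr ι a ⌊τ * n⌋₊).card : ℝ) * x ^ ⌊τ * n⌋₊ ≤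
      ∑ z : ι → ZMod a, ∏ i, (if z i ≠ 0 then x else (1 : ℝ)) := by
    calc ((spr ι a ⌊τ * n⌋₊).card : ℝ) * x ^ ⌊τ * n⌋₊ =
          ∑ z ∈ spr ι a ⌊τ * n⌋₊, x ^ ⌊τ * n⌋₊ := by
          rw [sum_const, nsmul_eq_mul]
      _ ≤ ∑ z ∈ spr ι a ⌊τ * n⌋₊, ∏ i, (if z i ≠ 0 then x else (1 : ℝ)) := by
          refine sum_le_sum fun z hz => ?_
          rw [e2]
          exact pow_le_pow_of_le_one hx0.le hx1 (mem_filter.1 hz).2
      _ ≤ _ := by
          refine sum_le_sum_of_subset_of_nonneg (subset_univ _) fun z _ _ => ?_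
          rw [e2]
          positivity
  have e5 : ((spr ι a ⌊τ * n⌋₊).card : ℝ) * x ^ ⌊τ * n⌋₊ ≤ exp (τ * n) := by
    rw [e1] at e4
    exact e4.trans e3
  have e6 : exp (-(τ * n * (log a - log τ))) ≤ x ^ ⌊τ * n⌋₊ := by
    have h7 : x ^ ⌊τ * n⌋₊ = exp (⌊τ * n⌋₊ * log x) := by
      rw [exp_nat_mul, exp_log hx0]
    rw [h7, exp_le_exp, hx, log_div h0.ne' ha.ne']
    have h8 : (⌊τ * n⌋₊ : ℝ) ≤ τ * n := Nat.floor_le (by positivity)
    have h9 : log τ - log a ≤ 0 := by
      have h10 : log τ ≤ 0 := log_nonpos h0.le h1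
      have h11 : 0 ≤ log a := log_nonneg ha1'
      linarith
    nlinarith
  have e7 : ((spr ι a ⌊τ * n⌋₊).card : ℝ) * exp (-(τ * n * (log a - log τ))) ≤ exp (τ * n) :=
    (mul_le_mul_of_nonneg_left e6 (by positivity)).trans e5
  have h12 := mul_le_mul_of_nonneg_right e7 (exp_pos (τ * n * (log a - log τ))).le
  rw [mul_assoc, ← exp_add, neg_add_cancel, exp_zero, mul_one, ← exp_add] at h12
  refine h12.trans (le_of_eq ?_)
  congr 1
  ring

end Pool.Agent.H75C
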