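import Mathlib

/-!
# Functions of few coordinates, interpolation and Fourier coefficients
-/

set_option autoImplicit false

namespace Pool.Agent.H75C

open Finset

variable {K : Type} [Field K] {ι A : Type}

/-- `φ` depends only on the coordinates in `J`. -/
def Dep (φ : (ι → A) → K) (J : Finset ι) : Prop :=
  ∀ v w : ι → A, (∀ i ∈ J, v i = w i) → φ v = φ w

/-- The span of the functions of at most `D` coordinates. -/
def Jn (K : Type) [Field K] (ι A : Type) (D : ℕ) : Submodule K ((ι → A) → K) :=
  Submodule.span K {φ | ∃ J : Finset ι, J.card ≤ D ∧ Dep φ J}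

theorem Jn_mono {D E : ℕ} (h : D ≤ E) : Jn K ι A D ≤ Jn K ι A E := by
  refine Submodule.span_mono ?_
  rintro φ ⟨J, h1, h2⟩
  exact ⟨J, h1.trans h, h2⟩

theorem Jn_const (c : K) : (fun _ : ι → A => c) ∈ Jn K ι A 0 :=
  Submodule.subset_span ⟨∅, by simp, fun _ _ _ => rfl⟩

theorem Jn_mul {D E : ℕ} {f g : (ι → A) → K} (hf : f ∈ Jn K ι A D) (hg : g ∈ Jn K ι A E) :
    f * g ∈ Jn K ι A (D + E) := by
  classical
  have h := Submodule.mul_mem_mul hf hg
  unfold Jn at h
  rw [Submodule.span_mul_span] at h
  refine Submodule.span_mono ?_ h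
  rintro φ ⟨x, ⟨J, hJ1, hJ2⟩, y, ⟨J', hJ1', hJ2'⟩, rfl⟩
  refine ⟨J ∪ J', (card_union_le _ _).trans (Nat.add_le_add hJ1 hJ1'), fun v w hvw => ?_⟩
  have h1 := hJ2 v w fun i hi => hvw i (mem_union_left _ hi)
  have h2 := hJ2' v w fun i hi => hvw i (mem_union_right _ hi)
  simp [h1, h2]

theorem Jn_prod {β : Type} (s : Finset β) (d : β → ℕ) (f : β → (ι → A) → K)
    (h : ∀ b ∈ s, f b ∈ Jn K ι A (d b)) : (∏ b ∈ s, f b) ∈ Jn K ι A (∑ b ∈ s, d b) := by
  classical
  induction s using Finset.induction_on with
  | empty =>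
    rw [prod_empty, sum_empty]
    exact Jn_const 1
  | insert a s ha ih =>
    rw [prod_insert ha, sum_insert ha]
    exact Jn_mul (h a (mem_insert_self _ _)) (ih fun b hb => h b (mem_insert_of_mem hb))

theorem Jn_count [Fintype ι] [DecidableEq A] (b : A) (c : ℤ) :
    (fun v : ι → A => ((((univ.filter fun i => v i = b).card : ℤ) - c : ℤ) : K)) ∈
      Jn K ι A 1 := by
  have e : (fun v : ι → A => ((((univ.filter fun i => v i = b).card : ℤ) - c : ℤ) : K)) =
      (∑ i : ι, fun v : ι → A => if v i = b then (1 : K) else 0) - fun _ => (c : K) := by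
    funext v
    simp [Finset.sum_apply]
  rw [e]
  refine Submodule.sub_mem _ (Submodule.sum_mem _ fun i _ => ?_) (Jn_mono (Nat.zero_le _) (Jn_const _))
  refine Submodule.subset_span ⟨{i}, by simp, fun v w hvw => ?_⟩
  simp [hvw i (by simp)]

/-- The Newton polynomials for the enumeration of the integers. -/
noncomputable def Nw (K : Type) [Field K] {β : Type} [Fintype β] (m : β → ℕ) (y : β → ℤ) : K :=
  ∏ b, ∏ j ∈ range (m b), ((y b : K) - ((Equiv.intEquivNat.symm j : ℤ) : K))

theorem Nw_eq_zero {β : Type} [Fintype β] {m : β → ℕ} {y : β → ℤ} {b : β}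
    (h : Equiv.intEquivNat (y b) < m b) : Nw K m y = 0 := by
  refine prod_eq_zero (mem_univ b) (prod_eq_zero (mem_range.2 h) ?_)
  simp

theorem Nw_ne_zero [CharZero K] {β : Type} [Fintype β] {m : β → ℕ} {y : β → ℤ}
    (h : ∀ b, Equiv.intEquivNat (y b) = m b) : Nw K m y ≠ 0 := by
  refine prod_ne_zero_iff.2 fun b _ => prod_ne_zero_iff.2 fun j hj => ?_
  rw [sub_ne_zero]
  intro h1
  have h2 : y b = Equiv.intEquivNat.symm j := by exact_mod_cast h1
  have h3 := h b
  rw [h2, Equiv.apply_symm_apply] at h3
  rw [mem_range, h3] at hj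
  exact lt_irrefl _ hj

theorem Nw_mem {β : Type} [Fintype β] (m : β → ℕ) (u : β → (ι → A) → ℤ)
    (hu : ∀ b, (fun v => ((u b v : ℤ) : K)) ∈ Jn K ι A 1) :
    (fun v => Nw K m fun b => u b v) ∈ Jn K ι A (∑ b, m b) := by
  have e : (fun v => Nw K m fun b => u b v) =
      ∏ b, ∏ j ∈ range (m b), ((fun v => ((u b v : ℤ) : K)) -
        fun _ => ((Equiv.intEquivNat.symm j : ℤ) : K)) := by
    funext v
    simp [Nw, Finset.prod_apply]
  rw [e]
  refine Jn_prod _ _ _ fun b _ => ?_
  have h := Jn_prod (range (m b)) (fun _ => 1) (fun j => (fun v => ((u b v : ℤ) : K)) -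
        fun _ => ((Equiv.intEquivNat.symm j : ℤ) : K)) fun j _ => Submodule.sub_mem _ (hu b)
          (Jn_mono (Nat.zero_le _) (Jn_const _))
  simpa using h

/-- Interpolation by polynomials of degree at most `D`. -/
theorem interp [CharZero K] {β : Type} [Fintype β] [DecidableEq β] (D : ℕ) :
    ∀ H : (β → ℤ) → K, ∃ p : (β → ℤ) → K,
      (∀ u : β → (ι → A) → ℤ, (∀ b, (fun v => ((u b v : ℤ) : K)) ∈ Jn K ι A 1) →
        (fun v => p fun b => u b v) ∈ Jn K ι A D) ∧
      ∀ y : β → ℤ, ∑ b, Equiv.intEquivNat (y b) ≤ D → p y = H y := by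
  induction D with
  | zero =>
    intro H
    refine ⟨fun _ => H fun _ => Equiv.intEquivNat.symm 0, fun u _ => Jn_const _, fun y hy => ?_⟩
    have h1 : ∀ b, Equiv.intEquivNat (y b) = 0 := by
      intro b
      have := single_le_sum (f := fun b => Equiv.intEquivNat (y b)) (fun _ _ => Nat.zero_le _)
        (mem_univ b)
      exact Nat.le_zero.1 (this.trans hy)
    beta_reduce
    congr 1
    funext b
    rw [← h1 b, Equiv.symm_apply_apply]
  | succ D ih =>
    intro H
    obtain ⟨p, hp1, hp2⟩ := ih H
    set Y : (β → ℕ) → β → ℤ := fun m b => Equiv.intEquivNat.symm (m b) with hY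
    refine ⟨fun y => p y + ∑ m ∈ piAntidiag univ (D + 1),
      ((H (Y m) - p (Y m)) / Nw K m (Y m)) * Nw K m y, fun u hu => ?_, fun y hy => ?_⟩
    · have e : (fun v => p (fun b => u b v) + ∑ m ∈ piAntidiag univ (D + 1),
          ((H (Y m) - p (Y m)) / Nw K m (Y m)) * Nw K m fun b => u b v) =
          (fun v => p fun b => u b v) + ∑ m ∈ piAntidiag univ (D + 1),
          ((H (Y m) - p (Y m)) / Nw K m (Y m)) • (fun v => Nw K m fun b => u b v) := by
        funext v
        simp [Finset.sum_apply]
      rw [e]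
      refine Submodule.add_mem _ (Jn_mono (Nat.le_succ _) (hp1 u hu))
        (Submodule.sum_mem _ fun m hm => Submodule.smul_mem _ _ ?_)
      have h1 := Nw_mem (K := K) m u hu
      rw [(mem_piAntidiag.1 hm).1] at h1
      exact h1
    · have key : ∀ m ∈ piAntidiag (univ : Finset β) (D + 1),
          (m ≠ fun b => Equiv.intEquivNat (y b)) → Nw K m y = 0 := by
        intro m hm hne
        have h1 := (mem_piAntidiag.1 hm).1
        by_contra hcon
        have h2 : ∀ b, m b ≤ Equiv.intEquivNat (y b) := by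
          intro b
          by_contra h3
          exact hcon (Nw_eq_zero (not_le.1 h3))
        apply hne
        funext b
        have h3 : ∑ b, Equiv.intEquivNat (y b) ≤ ∑ b, m b := by rw [h1]; exact hy
        have h4 := sum_le_sum fun b (_ : b ∈ univ) => h2 b
        have h5 := (sum_eq_sum_iff_of_le fun b (_ : b ∈ univ) => h2 b).1 (le_antisymm h4 h3)
        exact h5 b (mem_univ b)
      beta_reduce
      by_cases hD : ∑ b, Equiv.intEquivNat (y b) ≤ D
      · rw [hp2 y hD, sum_eq_zero, add_zero]
        intro m hm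
        rw [key m hm, mul_zero]
        rintro rfl
        have h1 := (mem_piAntidiag.1 hm).1
        omega
      · have hD' : ∑ b, Equiv.intEquivNat (y b) = D + 1 := by omega
        rw [sum_eq_single (fun b => Equiv.intEquivNat (y b))]
        · have h1 : Y (fun b => Equiv.intEquivNat (y b)) = y := by
            funext b
            simp [hY]
          rw [h1, div_mul_cancel₀ _ (Nw_ne_zero fun b => rfl)]
          ring
        · intro m hm hne
          rw [key m hm hne, mul_zero]
        · intro hcon
          exfalso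
          apply hcon
          rw [mem_piAntidiag]
          exact ⟨hD', fun _ _ => mem_univ _⟩

/-- The Fourier coefficients of a function of few coordinates are zero at the points with many
nonzero coordinates. -/
theorem vanish [Fintype ι] [DecidableEq ι] {a : ℕ} [NeZero a] {χ : AddChar (ZMod a) K}
    (hχ : χ.IsPrimitive) {D : ℕ} {P : (ι → ZMod a) → K} (hP : P ∈ Jn K ι (ZMod a) D)
    (z : ι → ZMod a) (hz : D < (univ.filter fun i => z i ≠ 0).card) :
    ∑ v, P v * ∏ i, χ (v i * z i) = 0 := by
  classical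
  unfold Jn at hP
  induction hP using Submodule.span_induction with
  | mem φ h =>
    obtain ⟨J, hJ1, hJ2⟩ := h
    obtain ⟨i, hi1, hi2⟩ := exists_mem_notMem_of_card_lt_card (hJ1.trans_lt hz)
    rw [mem_filter] at hi1
    have h1 := hχ hi1.2
    rw [AddChar.ne_one_iff] at h1
    obtain ⟨s, hs⟩ := h1
    rw [AddChar.mulShift_apply] at hs
    set S := ∑ v, φ v * ∏ i, χ (v i * z i) with hS
    have h2 : S = S * χ (z i * s) := by
      conv_lhs => rw [hS]
      rw [← Equiv.sum_comp (Equiv.addRight (Pi.single i s))]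
      rw [hS, sum_mul]
      refine sum_congr rfl fun v _ => ?_
      have h3 : φ ((Equiv.addRight (Pi.single i s)) v) = φ v := by
        apply hJ2
        intro j hj
        have : j ≠ i := fun h => hi2 (h ▸ hj)
        simp [this]
      rw [h3, mul_assoc]
      congr 1
      have h4 : ∀ j, χ ((Equiv.addRight (Pi.single i s)) v j * z j) =
          χ (v j * z j) * (if j = i then χ (z i * s) else 1) := by
        intro j
        rw [Equiv.coe_addRight]
        beta_reduce
        rw [Pi.add_apply, add_mul, AddChar.map_add_eq_mul]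
        congr 1
        by_cases h : j = i
        · subst h
          simp [mul_comm]
        · simp [h]
      simp_rw [h4]
      rw [prod_mul_distrib, prod_ite_eq' univ i]
      simp
    have h3 : S * (1 - χ (z i * s)) = 0 := by
      rw [mul_sub, mul_one, ← h2, sub_self]
    rcases mul_eq_zero.1 h3 with h | h
    · exact h
    · exact absurd (sub_eq_zero.1 h).symm hs
  | zero => simp
  | add x y _ _ hx hy =>
    simp only [Pi.add_apply, add_mul, sum_add_distrib, hx, hy, add_zero]
  | smul c x _ hx =>
    simp only [Pi.smul_apply, smul_eq_mul, mul_assoc]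
    rw [← mul_sum, hx, mul_zero]

end Pool.Agent.H75C
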