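import Pool.Agent.H75C.Basic
import Pool.Agent.H75C.Junta

/-!
# The Fourier matrix of a power of a cyclic group is not rigid
-/

set_option autoImplicit false

namespace Pool.Agent.H75C

open Finset

variable {K : Type} [Field K]

/-- The number of coordinates of `v` equal to `b`. -/
def cnt {ι A : Type} [Fintype ι] [DecidableEq A] (v : ι → A) (b : A) : ℕ :=
  (univ.filter fun i => v i = b).card

/-- The vectors with an unusual number of coordinates of some kind. -/
def atyp (ι : Type) [Fintype ι] [DecidableEq ι] (a : ℕ) [NeZero a] (c : ℤ) (D : ℕ) :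
    Finset (ι → ZMod a) :=
  univ.filter fun v => D < ∑ b, Equiv.intEquivNat ((cnt v b : ℤ) - c)

/-- The vectors with at most `D` nonzero coordinates. -/
def spr (ι : Type) [Fintype ι] [DecidableEq ι] (a : ℕ) [NeZero a] (D : ℕ) :
    Finset (ι → ZMod a) :=
  univ.filter fun z => (univ.filter fun i => z i ≠ 0).card ≤ D

theorem cyc_inv [CharZero K] {a : ℕ} [NeZero a] {χ : AddChar (ZMod a) K} (hχ : χ.IsPrimitive)
    (h1 : ZMod a → K) :
    ∃ H1 : ZMod a → K, ∀ z, h1 z = ∑ v, H1 v * χ (v * z) := by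
  refine ⟨fun v => (a : K)⁻¹ * ∑ u, h1 u * χ (-(v * u)), fun z => ?_⟩
  have ha : (a : K) ≠ 0 := Nat.cast_ne_zero.2 (NeZero.ne a)
  have e : ∀ v, (a : K)⁻¹ * (∑ u, h1 u * χ (-(v * u))) * χ (v * z) =
      (a : K)⁻¹ * ∑ u, h1 u * χ (v * (z - u)) := by
    intro v
    rw [mul_assoc, sum_mul]
    congr 1
    refine sum_congr rfl fun u _ => ?_
    rw [mul_assoc, ← AddChar.map_add_eq_mul]
    congr 2
    ring
  simp_rw [e]
  rw [← mul_sum, sum_comm]
  simp_rw [← mul_sum, AddChar.sum_mulShift _ hχ]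
  rw [sum_eq_single z]
  · simp only [sub_self, if_true, ZMod.card]
    field_simp
  · intro u _ hu
    have : z - u ≠ 0 := sub_ne_zero.2 (Ne.symm hu)
    simp [this]
  · simp

theorem cyc_decomp [CharZero K] (ι : Type) [Fintype ι] [DecidableEq ι] {a : ℕ} [NeZero a]
    {χ : AddChar (ZMod a) K} (hχ : χ.IsPrimitive) (h1 : ZMod a → K) (h1ne : ∀ x, h1 x ≠ 0)
    (h1add : ∀ x y, h1 (x + y) = h1 x * h1 y * χ (x * y)) (c : ℤ) (D : ℕ) :
    ∃ L S : (ι → ZMod a) → (ι → ZMod a) → K,
      (∀ w x, ∏ i, χ (w i * x i) = L w x + S w x) ∧ FR (atyp ι a c D).card L ∧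
      Sp (spr ι a D).card S ∧ Sp (spr ι a D).card (fun x w => S w x) := by
  obtain ⟨H1, hH1⟩ := cyc_inv hχ h1
  set H : (ι → ZMod a) → K := fun v => ∏ i, H1 (v i) with hH
  set h : (ι → ZMod a) → K := fun z => ∏ i, h1 (z i) with hh
  have hhne : ∀ z, h z ≠ 0 := fun z => prod_ne_zero_iff.2 fun i _ => h1ne _
  have hhF : ∀ z, h z = ∑ v, H v * ∏ i, χ (v i * z i) := by
    intro z
    simp only [hh, hH]
    simp_rw [hH1, ← prod_mul_distrib]
    rw [prod_univ_sum, Fintype.piFinset_univ]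
  have hhadd : ∀ w x, h (w + x) = h w * h x * ∏ i, χ (w i * x i) := by
    intro w x
    simp only [hh, Pi.add_apply, h1add, prod_mul_distrib]
  obtain ⟨p, hp1, hp2⟩ := interp (K := K) (ι := ι) (A := ZMod a) (β := ZMod a) D
    (fun y => ∏ b, H1 b ^ (y b + c).toNat)
  set P : (ι → ZMod a) → K := fun v => p fun b => (cnt v b : ℤ) - c with hP
  have hPJ : P ∈ Jn K ι (ZMod a) D := hp1 (fun b v => (cnt v b : ℤ) - c) fun b => Jn_count b c
  have hPH : ∀ v, v ∉ atyp ι a c D → P v = H v := by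
    intro v hv
    rw [atyp, mem_filter, not_and] at hv
    have h2 := hp2 (fun b => (cnt v b : ℤ) - c) (not_lt.1 (hv (mem_univ _)))
    simp only [hP, h2, hH]
    rw [← Finset.prod_fiberwise univ v]
    refine prod_congr rfl fun b _ => ?_
    rw [sub_add_cancel, Int.toNat_natCast, cnt, ← prod_const]
    refine prod_congr rfl fun i hi => ?_
    rw [(mem_filter.1 hi).2]
  set g : (ι → ZMod a) → K := fun z => ∑ v, P v * ∏ i, χ (v i * z i) with hg
  have hg0 : ∀ z, g z ≠ 0 → z ∈ spr ι a D := by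
    intro z hz
    by_contra hcon
    rw [spr, mem_filter, not_and] at hcon
    exact hz (vanish hχ hPJ z (not_le.1 (hcon (mem_univ _))))
  have hdec : ∀ z, h z = (∑ v ∈ atyp ι a c D, (H v - P v) * ∏ i, χ (v i * z i)) + g z := by
    intro z
    have e1 : ∑ v ∈ atyp ι a c D, (H v - P v) * ∏ i, χ (v i * z i) =
        ∑ v, (H v - P v) * ∏ i, χ (v i * z i) := by
      refine sum_subset (subset_univ _) fun v _ hv => ?_
      rw [hPH v hv, sub_self, zero_mul]
    rw [e1, hhF, hg, ← sum_add_distrib]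
    refine sum_congr rfl fun v _ => ?_
    ring
  refine ⟨fun w x => (h w)⁻¹ * (h x)⁻¹ * ∑ v ∈ atyp ι a c D, (H v - P v) *
      (∏ i, χ (v i * w i)) * (∏ i, χ (v i * x i)), fun w x => (h w)⁻¹ * (h x)⁻¹ * g (w + x),
      ?_, ?_, ?_, ?_⟩
  · intro w x
    beta_reduce
    have e2 : ∏ i, χ (w i * x i) = (h w)⁻¹ * (h x)⁻¹ * h (w + x) := by
      rw [hhadd]
      have h2 := hhne w
      have h3 := hhne x
      field_simp
    rw [e2, hdec (w + x), mul_add]
    congr 2
    refine sum_congr rfl fun v _ => ?_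
    rw [mul_assoc]
    congr 1
    rw [← prod_mul_distrib]
    refine prod_congr rfl fun i _ => ?_
    rw [← AddChar.map_add_eq_mul, Pi.add_apply, mul_add]
  · have h2 := (FR.of_finset (atyp ι a c D) (fun v => H v - P v) (fun w v => ∏ i, χ (v i * w i))
      fun v x => ∏ i, χ (v i * x i)).scale (fun w => (h w)⁻¹) (fun x => (h x)⁻¹)
    exact h2
  · intro w
    refine ⟨(spr ι a D).image fun z => z - w, card_image_le, fun x hx => ?_⟩
    rw [mem_image]
    exact ⟨w + x, hg0 _ fun h0 => hx (by beta_reduce; rw [h0, mul_zero]), by abel⟩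
  · intro x
    refine ⟨(spr ι a D).image fun z => z - x, card_image_le, fun w hw => ?_⟩
    rw [mem_image]
    exact ⟨w + x, hg0 _ fun h0 => hw (by beta_reduce; rw [h0, mul_zero]), by abel⟩

end Pool.Agent.H75C
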