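import Pool.Agent.H75C.Big

/-!
# Rational circulant matrices of finite abelian groups are not rigid over the rational numbers
-/

set_option autoImplicit false

namespace Pool.Agent.H75C

open Finset Real

/-- Grouping the factors of a product by a classifying map. -/
def fiberEquiv {I J : Type} (cls : I → J) (A : I → Type) [∀ i, AddCommGroup (A i)] :
    (∀ i, A i) ≃+ (∀ j, ∀ i : {i // cls i = j}, A i.1) where
  toFun x j i := x i.1
  invFun y i := y (cls i) ⟨i, rfl⟩
  left_inv x := rfl
  right_inv y := by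
    funext j i
    obtain ⟨i, rfl⟩ := i
    rfl
  map_add' x y := rfl

/-- Groups which are products of equal cyclic groups. -/
def sameEquiv {I : Type} (m : I → ℕ) (a : ℕ) (h : ∀ i, m i = a) :
    (∀ i, ZMod (m i)) ≃+ (I → ZMod a) :=
  AddEquiv.piCongrRight fun i => (ZMod.ringEquivCongr (h i)).toAddEquiv

theorem exists_field (M : ℕ) (hM : M ≠ 0) : ∃ (K : Type) (_ : Field K) (_ : CharZero K)
    (_ : Algebra ℚ K) (_ : Module.Finite ℚ K) (ζ : K), IsPrimitiveRoot ζ M := by
  have : NeZero M := ⟨hM⟩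
  have h2 : NeZero ((M : ℕ) : ℚ) := ⟨by exact_mod_cast hM⟩
  have h3 : IsCyclotomicExtension {M} ℚ (CyclotomicField M ℚ) :=
    CyclotomicField.isCyclotomicExtension M ℚ
  exact ⟨CyclotomicField M ℚ, inferInstance, inferInstance, inferInstance,
    IsCyclotomicExtension.finiteDimensional {M} ℚ _, IsCyclotomicExtension.zeta M ℚ _,
    IsCyclotomicExtension.zeta_spec M ℚ _⟩

theorem main (ε : ℝ) (hε : 0 < ε) : ∃ N : ℕ, ∀ (G : Type) [AddCommGroup G] [Fintype G],
    N ≤ Fintype.card G → ∀ f : G → ℚ, ∃ S : Matrix G G ℚ,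
      ((univ.filter (fun p : G × G => S p.1 p.2 ≠ 0)).card : ℝ) <
        (Fintype.card G : ℝ) ^ (1 + ε) ∧
      ((Matrix.of (fun x y : G => f (x - y)) - S).rank : ℝ) ≤ ε * (Fintype.card G : ℝ) := by
  classical
  obtain ⟨B⟩ := exists_params (δ := ε / 48) (by positivity)
  set B0 : ℕ := B.d ^ B.d with hB0
  set R : ℕ := B0 + (∏ j, B.p j) + 2 with hR
  set M : ℕ := 2 * R.factorial with hM
  have hM0 : M ≠ 0 := by
    rw [hM]
    exact mul_ne_zero two_ne_zero (Nat.factorial_ne_zero _)
  obtain ⟨K, iK1, iK2, iK3, iK4, ζ, hζ⟩ := exists_field M hM0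
  have hsm : ∀ a : Fin B0, 2 * ((a : ℕ) + 2) ∣ M := by
    intro a
    rw [hM]
    refine mul_dvd_mul_left 2 (Nat.dvd_factorial (by omega) ?_)
    have := a.2
    omega
  have hbg : ∀ j, 2 * B.p j ∣ M := by
    intro j
    rw [hM]
    have h1 := B.hp3 j
    refine mul_dvd_mul_left 2 (Nat.dvd_factorial (by omega) ?_)
    have h2 : B.p j ∣ ∏ j, B.p j := dvd_prod_of_mem _ (mem_univ j)
    have h3 : 0 < ∏ j, B.p j := prod_pos fun j _ => by have := B.hp3 j; omega
    have h4 := Nat.le_of_dvd h3 h2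
    omega
  set J := Option (Fin B0) with hJ
  set Φ : ℝ := (Module.finrank ℚ K : ℝ) with hΦ
  have hΦ0 : 0 < Φ := by
    rw [hΦ]
    exact_mod_cast Module.finrank_pos
  set η : ℝ := min 1 (ε / (2 * 2 ^ (Fintype.card J) * Φ)) with hη
  have hη0 : 0 < η := lt_min one_pos (by positivity)
  have hη1 : η ≤ 1 := min_le_left _ _
  have hη2 : 2 * (2 ^ (Fintype.card J) * η) * Φ ≤ ε := by
    have h1 : η ≤ ε / (2 * 2 ^ (Fintype.card J) * Φ) := min_le_right _ _
    rw [le_div_iff₀ (by positivity)] at h1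
    linarith
  have hsmall := fun a : Fin B0 =>
    have : NeZero ((a : ℕ) + 2) := ⟨by omega⟩
    small_dec (K := K) hM0 hζ (hsm a) (by omega) (δ := ε / 2) (by positivity) hη0
  choose Cs hCs1 hCs2 using hsmall
  obtain ⟨Cb, hCb1, hCb2⟩ := big_dec (K := K) (δ := ε / 48) (by positivity) B hM0 hζ hbg hη0
  set Cj : J → ℝ := fun j => Option.elim j Cb Cs with hCj
  have hCj0 : ∀ j, 1 ≤ Cj j := by
    intro j
    cases j with
    | none => exact hCb1
    | some a => exact hCs1 a
  set C : ℝ := ∏ j, Cj j with hC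
  have hC0 : 0 < C := prod_pos fun j _ => lt_of_lt_of_le one_pos (hCj0 j)
  obtain ⟨N, hN⟩ := exists_nat_gt (C ^ (2 / ε))
  refine ⟨N + 1, fun G _ _ hG f => ?_⟩
  obtain ⟨I, hI, m, hm, ⟨e⟩⟩ := AddCommGroup.equiv_directSum_zmod_of_finite' G
  have hmz : ∀ i, NeZero (m i) := fun i => ⟨by have := hm i; omega⟩
  set cls : I → J := fun i => if h : m i - 2 < B0 then some ⟨m i - 2, h⟩ else none with hcls
  -- the decomposition of each group
  have hdec : ∀ j : J, Dec K (∀ i : {i // cls i = j}, ZMod (m i.1)) η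
      (Cj j * ((Fintype.card (∀ i : {i // cls i = j}, ZMod (m i.1)) : ℕ) : ℝ) ^ (ε / 2)) := by
    intro j
    cases j with
    | none =>
      have h1 := hCb2 {i // cls i = none} (fun i => m i.1) (fun i => by
        have h2 : (if h : m i.1 - 2 < B0 then some (⟨m i.1 - 2, h⟩ : Fin B0) else none) = none :=
          i.2
        split_ifs at h2 with h3
        omega)
      refine h1.mono le_rfl (le_of_eq ?_)
      congr 2
      ring
    | some a =>
      have : NeZero ((a : ℕ) + 2) := ⟨by omega⟩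
      have h1 := hCs2 a {i // cls i = some a}
      have h2 : ∀ i : {i // cls i = some a}, m i.1 = (a : ℕ) + 2 := by
        intro i
        have h2 : (if h : m i.1 - 2 < B0 then some (⟨m i.1 - 2, h⟩ : Fin B0) else none) =
          some a := i.2
        split_ifs at h2 with h3
        have h4 := Option.some.inj h2
        have h5 : m i.1 - 2 = (a : ℕ) := congrArg Fin.val h4
        have h6 := hm i.1
        omega
      have h7 := h1.equiv (sameEquiv (fun i : {i // cls i = some a} => m i.1) _ h2)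
      refine h7.mono le_rfl (le_of_eq ?_)
      rw [Fintype.card_congr (sameEquiv (fun i : {i // cls i = some a} => m i.1) _ h2).toEquiv]
      rfl
  have hpi := Dec.pi hη0.le hη1 hdec
  have e2 : G ≃+ ∀ i, ZMod (m i) := e.trans (DirectSum.addEquivProd _)
  have hG2 := hpi.equiv (e2.trans (fiberEquiv cls fun i => ZMod (m i)))
  obtain ⟨S, hS1, hS2⟩ := hG2.main f
  set g : ℝ := (Fintype.card G : ℝ) with hg
  have hcard : (g : ℝ) = ∏ j, ((Fintype.card (∀ i : {i // cls i = j}, ZMod (m i.1)) : ℕ) : ℝ) := by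
    rw [hg, Fintype.card_congr (e2.trans (fiberEquiv cls fun i => ZMod (m i))).toEquiv,
      Fintype.card_pi]
    push_cast
    rfl
  have hgN : C ^ (2 / ε) < g := by
    refine hN.trans_le ?_
    rw [hg]
    exact_mod_cast (Nat.le_succ N).trans hG
  have hg0 : 0 < g := lt_of_le_of_lt (rpow_nonneg hC0.le _) hgN
  refine ⟨S, ?_, ?_⟩
  · refine lt_of_le_of_lt hS1 ?_
    have h8 : ∏ j, (Cj j * ((Fintype.card (∀ i : {i // cls i = j}, ZMod (m i.1)) : ℕ) : ℝ) ^
        (ε / 2)) = C * g ^ (ε / 2) := by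
      rw [prod_mul_distrib, hcard]
      congr 1
      rw [← Real.finsetProd_rpow]
      intro j _
      positivity
    rw [h8]
    have h9 : C < g ^ (ε / 2) := by
      have h10 : C = (C ^ (2 / ε)) ^ (ε / 2) := by
        rw [← rpow_mul hC0.le]
        have : 2 / ε * (ε / 2) = 1 := by field_simp
        rw [this, rpow_one]
      rw [h10]
      exact rpow_lt_rpow (rpow_nonneg hC0.le _) hgN (by positivity)
    have h11 : g ^ (1 + ε) = g ^ (ε / 2) * g ^ (ε / 2) * g := by
      rw [← rpow_add hg0]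
      conv_rhs => rw [← rpow_one g, ← rpow_mul hg0.le]
      rw [← rpow_add hg0]
      congr 1
      ring
    rw [h11]
    refine mul_lt_mul_of_pos_right ?_ hg0
    exact mul_lt_mul_of_pos_right h9 (by positivity)
  · refine hS2.trans ?_
    exact mul_le_mul_of_nonneg_right hη2 hg0.le

end Pool.Agent.H75C
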